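import Pool.Agent.Helper83.CB.Defs3

/-!
# Part 4, frames over the torus and the two main statements on means
-/

open Filter Topology MeasureTheory

namespace Pool.Agent.Helper83.CB

/-- (3.3) transition functions of shifts and permutations are in `S` -/
def ST_SHIFT : Prop := ∀ (n : ℕ) (N0 : E n → ℝ) (N : E (n + 1) → ℝ), Setup n N0 N → Unitary N0 →
  ∀ S : Set (M n), OpenSub N0 S → ∀ π G, Torus n π G → ∀ L K, IsFrame N0 N π 3 L K →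
  (∀ (μ : Ix n) (x : Ix n → ℝ), (∀ ν, -2 ≤ x ν ∧ x ν ≤ 2) →
    (K x).comp (L (x + Pi.single μ 1)) ∈ S) ∧
  (∀ (σ : Equiv.Perm (Fin n)) (x : Ix n → ℝ), (∀ ν, -2 ≤ x ν ∧ x ν ≤ 2) →
    (K x).comp (L (x ∘ sI σ)) ∈ S)

/-- the curvature vanishes in directions on which `π` does not depend -/
def ST_FREEZE : Prop := ∀ (n : ℕ) (N0 : E n → ℝ) (N : E (n + 1) → ℝ), Setup n N0 N → Unitary N0 →
  ∀ k : Submodule ℝ (M n), LieOf N0 k → ∀ (Q0 Q1 : M n →ₗ[ℝ] M n), QData N0 k Q0 Q1 →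
  ∀ (ι : Type) [Fintype ι] [DecidableEq ι] (π : (ι → ℝ) → M (n + 1)) (g : (ι → ℝ) → ℝ),
  (∀ x, star (π x) = π x) → ∀ L K, IsFrame N0 N π 3 L K → ∀ (O : Set (ι → ℝ)) (μ : ι), IsOpen O →
  O ⊆ Metric.ball 0 3 → (∀ x ∈ O, ∀ s, π (Function.update x μ s) = π x) →
  (∀ x s, g (Function.update x μ s) = g x) →
  ∀ᵐ x, x ∈ O → ∀ ν, Fcon K L g Q0 Q1 x μ ν = 0 ∧ Fcon K L g Q0 Q1 x ν μ = 0

/-- gauge relation between the curvature at `x` and at `x + e_μ` -/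
def ST_FSH : Prop := ∀ (n : ℕ) (N0 : E n → ℝ) (N : E (n + 1) → ℝ), Setup n N0 N → Unitary N0 →
  ∀ k : Submodule ℝ (M n), LieOf N0 k → ∀ (Q0 Q1 : M n →ₗ[ℝ] M n), QData N0 k Q0 Q1 →
  ∀ (ι : Type) [Fintype ι] [DecidableEq ι] (π : (ι → ℝ) → M (n + 1)) (g : (ι → ℝ) → ℝ),
  (∀ x, star (π x) = π x) → (∀ x μ, π (x + Pi.single μ 1) = π x) →
  (∀ x μ, g (x + Pi.single μ 1) = g x) → ∀ L K, IsFrame N0 N π 3 L K → ∀ μ : ι,
  ∀ᵐ x : ι → ℝ, (∀ ν, -2 ≤ x ν ∧ x ν ≤ 2) →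
    (K x).comp (L (x + Pi.single μ 1)) ∈ PP N0 N0 ∧
    ∀ ν ν', Fcon K L g Q0 Q1 (x + Pi.single μ 1) ν ν' =
      star ((K x).comp (L (x + Pi.single μ 1))) * Fcon K L g Q0 Q1 x ν ν' *
        (K x).comp (L (x + Pi.single μ 1))

/-- gauge relation between the curvature at `x` and at `x ∘ τ` -/
def ST_FPE : Prop := ∀ (n : ℕ) (N0 : E n → ℝ) (N : E (n + 1) → ℝ), Setup n N0 N → Unitary N0 →
  ∀ k : Submodule ℝ (M n), LieOf N0 k → ∀ (Q0 Q1 : M n →ₗ[ℝ] M n), QData N0 k Q0 Q1 →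
  ∀ (ι : Type) [Fintype ι] [DecidableEq ι] (π : (ι → ℝ) → M (n + 1)) (τ : Equiv.Perm ι),
  (∀ x, star (π x) = π x) → (∀ x, π (x ∘ τ) = π x) → ∀ L K, IsFrame N0 N π 3 L K →
  ∀ᵐ x : ι → ℝ, (∀ ν, -2 ≤ x ν ∧ x ν ≤ 2) →
    ∀ ν ν', Fcon K L (fun _ => 0) Q0 Q1 (x ∘ τ) ν ν' =
      star ((K x).comp (L (x ∘ τ))) * Fcon K L (fun _ => 0) Q0 Q1 x (τ ν) (τ ν') *
        (K x).comp (L (x ∘ τ))

/-- coordinatewise fractional part -/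
noncomputable def fr {ι : Type} (x : ι → ℝ) : ι → ℝ := fun i => Int.fract (x i)

/-- the pair form `Σ dx_i dy_i` -/
noncomputable def Ext.Om {n : ℕ} (Λ : Ext (Ix n)) : Λ.X →L[ℝ] Λ.X :=
  ∑ i : Fin n, Λ.e (some (i, false)) * Λ.e (some (i, true))

/-- invariance of polynomials on `k` under `S` -/
def InvS {n q : ℕ} (S : Set (M n)) (k : Submodule ℝ (M n)) (c : Fin q → (M n →ₗ[ℝ] ℝ))
    (P : MvPolynomial (Fin q) ℝ) : Prop :=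
  ∀ g ∈ S, ∀ Y ∈ k, MvPolynomial.eval (fun a => c a (star g * Y * g)) P =
    MvPolynomial.eval (fun a => c a Y) P

/-- (CW1): the characteristic form of an invariant polynomial is good and its mean is a multiple
of a power of `Ω` -/
def ST_CW1 : Prop := ∀ (n : ℕ) (N0 : E n → ℝ) (N : E (n + 1) → ℝ), Setup n N0 N → Unitary N0 →
  ∀ k : Submodule ℝ (M n), LieOf N0 k → ∀ pr : M n →ₗ[ℝ] M n, (∀ X, pr X ∈ k) → QData N0 k pr 0 →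
  ∀ S : Set (M n), OpenSub N0 S → ∀ π G, Torus n π G → ∀ L K, IsFrame N0 N π 3 L K →
  ∀ (Λ : Ext (Ix n)) (q : ℕ) (c : Fin q → (M n →ₗ[ℝ] ℝ)) (P : MvPolynomial (Fin q) ℝ),
  InvS S k c P →
  Good Λ (fun x => PF Λ c P (Fcon K L (fun _ => 0) pr 0 (fr x))) ∧
  ∀ d, P.IsHomogeneous d → ∃ a : ℝ,
    ∫ x in cube (Ix n), PF Λ c P (Fcon K L (fun _ => 0) pr 0 (fr x)) = a • Λ.Om ^ d

/-- (CW2): the trace polynomials -/
def ST_CW2 : Prop := ∀ (n : ℕ) (N0 : E n → ℝ) (N : E (n + 1) → ℝ), Setup n N0 N → Unitary N0 →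
  ∀ k : Submodule ℝ (M n), LieOf N0 k → ∀ pr : M n →ₗ[ℝ] M n, (∀ X, pr X ∈ k) → QData N0 k pr 0 →
  ∀ π G, Torus n π G → ∀ L K, IsFrame N0 N π 3 L K →
  ∀ (Λ : Ext (Ix n)) (q j : ℕ) (c : Fin q → (M n →ₗ[ℝ] ℝ)) (P : MvPolynomial (Fin q) ℝ), 1 ≤ j →
  (∀ Y : M n, MvPolynomial.eval (fun a => c a Y) P =
    (LinearMap.trace ℂ (E n) ((((-Complex.I) • Y) ^ j : M n) : E n →ₗ[ℂ] E n)).re) →
  ∫ x in cube (Ix n), PF Λ c P (Fcon K L (fun _ => 0) pr 0 (fr x)) =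
    -((∫ s in (0 : ℝ)..1, ∫ t in (0 : ℝ)..1, G s t) • Λ.Om) ^ j

/-- the two-form `fpi` of the line bundle is good, its mean is `κ Ω` -/
def ST_LINE : Prop := ∀ (n : ℕ) (N0 : E n → ℝ) (N : E (n + 1) → ℝ), Setup n N0 N → Unitary N0 →
  ∀ π G, Torus n π G → ∀ L K, IsFrame N0 N π 3 L K → ∀ (Λ : Ext (Ix n)),
  Good Λ (fun x => Λ.two (fpi π x)) ∧
  ∫ x in cube (Ix n), Λ.two (fpi π x) = (∫ s in (0 : ℝ)..1, ∫ t in (0 : ℝ)..1, G s t) • Λ.Om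

/-- transgression: the mean of a trace form does not change from `pr` to the identity -/
def ST_TRG : Prop := ∀ (n : ℕ) (N0 : E n → ℝ) (N : E (n + 1) → ℝ), Setup n N0 N → Unitary N0 →
  ∀ k : Submodule ℝ (M n), LieOf N0 k → ∀ pr : M n →ₗ[ℝ] M n, (∀ X, pr X ∈ k) → QData N0 k pr 0 →
  ∀ π G, Torus n π G → ∀ L K, IsFrame N0 N π 3 L K →
  ∀ (Λ : Ext (Ix n)) (q j : ℕ) (c : Fin q → (M n →ₗ[ℝ] ℝ)) (P : MvPolynomial (Fin q) ℝ),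
  (∀ Y : M n, MvPolynomial.eval (fun a => c a Y) P =
    (LinearMap.trace ℂ (E n) ((((-Complex.I) • Y) ^ j : M n) : E n →ₗ[ℂ] E n)).re) →
  ∫ x in cube (Ix n), PF Λ c P (Fcon K L (fun _ => 0) pr 0 (fr x)) =
    ∫ x in cube (Ix n), PF Λ c P (Fcon K L (fun _ => 0) LinearMap.id 0 (fr x))

/-- a unitary change of basis of `ℂ^n` makes all isometries unitary (uses `ST_INV`) -/
def ST_UNI : Prop := ∀ (n : ℕ) (N : E (n + 1) → ℝ), IsNorm N →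
  (∀ f g : E (n + 1) →L[ℂ] ℂ, f ≠ 0 → g ≠ 0 →
    ∃ T : kr f ≃ₗ[ℂ] kr g, ∀ x : kr f, N (T x : E (n + 1)) = N (x : E (n + 1))) →
  ∃ N0 : E n → ℝ, Setup n N0 N ∧ Unitary N0

/-- existence of the trace polynomials in suitable coordinates -/
def ST_TRP : Prop := ∀ (n : ℕ), ∃ (q : ℕ) (c : Fin q → (M n →ₗ[ℝ] ℝ)), ∀ j : ℕ,
  ∃ P : MvPolynomial (Fin q) ℝ, P.IsHomogeneous j ∧
    ∀ Y : M n, MvPolynomial.eval (fun a => c a Y) P =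
      (LinearMap.trace ℂ (E n) ((((-Complex.I) • Y) ^ j : M n) : E n →ₗ[ℂ] E n)).re

end Pool.Agent.Helper83.CB
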