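import Pool.Agent.Helper83.CB.FinC

/-!
# Final assembly, fourth part: abstract normed spaces
-/

open Filter Topology MeasureTheory Matrix

namespace Pool.Agent.Helper83.CB

theorem hilbert_of_parallelogram {n : ℕ} {V : Type*} [NormedAddCommGroup V] [NormedSpace ℂ V]
    (hV : Module.finrank ℂ V = n)
    (h : ∀ x y : V, ‖x + y‖ ^ 2 + ‖x - y‖ ^ 2 = 2 * (‖x‖ ^ 2 + ‖y‖ ^ 2)) [FiniteDimensional ℂ V] :
    Nonempty (V ≃ₗᵢ[ℂ] EuclideanSpace ℂ (Fin n)) := by
  subst hV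
  let I : InnerProductSpace ℂ V := InnerProductSpace.ofNorm ℂ (fun x y => by
    have := h x y
    nlinarith [this])
  exact ⟨(stdOrthonormalBasis ℂ V).repr⟩

theorem finrank_kr {n : ℕ} (f : E (n + 1) →L[ℂ] ℂ) (hf : f ≠ 0) :
    Module.finrank ℂ (kr f) = n := by
  have h1 := LinearMap.finrank_range_add_finrank_ker f.toLinearMap
  have h2 : LinearMap.range f.toLinearMap = ⊤ := by
    apply LinearMap.range_eq_top.mpr
    apply LinearMap.surjective
    intro h0
    apply hf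
    ext x
    exact congrArg (fun g : E (n + 1) →ₗ[ℂ] ℂ => g x) h0
  rw [h2, finrank_top] at h1
  have h3 : Module.finrank ℂ (E (n + 1)) = n + 1 := by simp
  rw [h3, Module.finrank_self] at h1
  show Module.finrank ℂ (LinearMap.ker f.toLinearMap) = n
  omega

theorem abstract_theorem (hUNI : ST_UNI)
    {n : ℕ} (hc : ∀ (N0 : E n → ℝ) (N : E (n + 1) → ℝ), Setup n N0 N → Unitary N0 →
      ∀ x y, N (x + y) ^ 2 + N (x - y) ^ 2 = 2 * (N x ^ 2 + N y ^ 2))
    {V : Type*} [NormedAddCommGroup V] [NormedSpace ℂ V]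
    (hV : Module.finrank ℂ V = n + 1)
    (hiso : ∀ H₁ H₂ : Submodule ℂ V, Module.finrank ℂ H₁ = n → Module.finrank ℂ H₂ = n →
      Nonempty (H₁ ≃ₗᵢ[ℂ] H₂)) :
    Nonempty (V ≃ₗᵢ[ℂ] EuclideanSpace ℂ (Fin (n + 1))) := by
  have : FiniteDimensional ℂ V := FiniteDimensional.of_finrank_pos (by omega)
  have hE : Module.finrank ℂ (E (n + 1)) = n + 1 := by simp
  let T : V ≃ₗ[ℂ] E (n + 1) := LinearEquiv.ofFinrankEq V (E (n + 1)) (hV.trans hE.symm)
  let N : E (n + 1) → ℝ := fun x => ‖T.symm x‖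
  have hN : IsNorm N := by
    refine ⟨fun x hx => ?_, fun c x => ?_, fun x y => ?_⟩
    · exact norm_pos_iff.mpr (by simpa using hx)
    · show ‖T.symm (c • x)‖ = ‖c‖ * ‖T.symm x‖
      rw [map_smul, norm_smul]
    · show ‖T.symm (x + y)‖ ≤ ‖T.symm x‖ + ‖T.symm y‖
      rw [map_add]; exact norm_add_le _ _
  have hker : ∀ f g : E (n + 1) →L[ℂ] ℂ, f ≠ 0 → g ≠ 0 →
      ∃ S : kr f ≃ₗ[ℂ] kr g, ∀ x : kr f, N (S x : E (n + 1)) = N (x : E (n + 1)) := by
    intro f g hf hg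
    have e : ∀ f : E (n + 1) →L[ℂ] ℂ, ∃ e : (kr f).map T.symm.toLinearMap ≃ₗ[ℂ] kr f,
        ∀ x : (kr f).map T.symm.toLinearMap, N (e x : E (n + 1)) = ‖(x : V)‖ := by
      intro f
      refine ⟨(T.symm.submoduleMap (kr f)).symm, fun x => ?_⟩
      have h1 : (T.symm.submoduleMap (kr f)) ((T.symm.submoduleMap (kr f)).symm x) = x :=
        LinearEquiv.apply_symm_apply _ _
      have h2 := congrArg (fun z : (kr f).map T.symm.toLinearMap => (z : V)) h1
      show ‖T.symm (((T.symm.submoduleMap (kr f)).symm x : kr f) : E (n + 1))‖ = ‖(x : V)‖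
      rw [← h2]
      rfl
    have hd : ∀ f : E (n + 1) →L[ℂ] ℂ, f ≠ 0 →
        Module.finrank ℂ ((kr f).map T.symm.toLinearMap) = n := by
      intro f hf
      obtain ⟨e, -⟩ := e f
      rw [LinearEquiv.finrank_eq e, finrank_kr f hf]
    obtain ⟨ef, hef⟩ := e f
    obtain ⟨eg, heg⟩ := e g
    obtain ⟨S⟩ := hiso _ _ (hd f hf) (hd g hg)
    refine ⟨(ef.symm.trans S.toLinearEquiv).trans eg, fun x => ?_⟩
    show N (eg (S (ef.symm x)) : E (n + 1)) = N (x : E (n + 1))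
    rw [heg]
    have h1 : ‖((S (ef.symm x) : (kr g).map T.symm.toLinearMap) : V)‖ =
        ‖((ef.symm x : (kr f).map T.symm.toLinearMap) : V)‖ := S.norm_map _
    rw [h1, ← hef, LinearEquiv.apply_symm_apply]
  obtain ⟨N0, hSet, hU⟩ := hUNI n N hN hker
  have hp := hc N0 N hSet hU
  refine hilbert_of_parallelogram hV fun x y => ?_
  have := hp (T x) (T y)
  simp only [N, ← map_add, ← map_sub, LinearEquiv.symm_apply_apply] at this
  exact this

end Pool.Agent.Helper83.CB
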