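import Pool.Agent.Helper80.CB.AlgMain
import Pool.Agent.Helper83.CB.FinD
import Pool.Agent.Helper83.CB.Defs4
import Pool.Agent.Helper14.CB.BIA
import Pool.Agent.Helper16.CB.PT
import Pool.Agent.Helper16.CB.TR
import Pool.Agent.Helper18.CB.EXT
import Pool.Agent.Helper18.CB.SHAPE
import Pool.Agent.Helper27.CB.CONV
import Pool.Agent.Helper27.CB.LIFT
import Pool.Agent.Helper27.CB.LOCAL
import Pool.Agent.Helper27.CB.SUM
import Pool.Agent.Helper30.CB.CONN
import Pool.Agent.Helper30.CB.SHIFT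
import Pool.Agent.Helper37.CB.TORUS
import Pool.Agent.Helper41.CB.COER
import Pool.Agent.Helper41.CB.GT
import Pool.Agent.Helper53.CB.CW1
import Pool.Agent.Helper55.CB.FRAME
import Pool.Agent.Helper55.CB.GAUGE
import Pool.Agent.Helper55.CB.GLOB
import Pool.Agent.Helper55.CB.LOC
import Pool.Agent.Helper57.CB.FREEZE
import Pool.Agent.Helper57.CB.GRP
import Pool.Agent.Helper57.CB.INV
import Pool.Agent.Helper63.CB.LIM
import Pool.Agent.Helper64.CB.GLUE
import Pool.Agent.Helper67.CB.GR2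
import Pool.Agent.Helper68.CB.INTER
import Pool.Agent.Helper68.CB.MAXI
import Pool.Agent.Helper74.CB.GR1
import Pool.Agent.Helper77.CB.PR
import Pool.Agent.Helper80.CB.CW2
import Pool.Agent.Helper80.CB.LINE
import Pool.Agent.Helper80.CB.PROD
import Pool.Agent.Helper80.CB.UNI
import Pool.Agent.Helper56.CB.TRG
import Pool.Agent.Helper27.CB.MEAN
import Pool.Agent.Helper76.CB.OVER
import Pool.Agent.Helper81.CB.CHART
import Pool.Agent.Helper81.CB.CS
import Pool.Agent.Helper81.CB.LIE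
import Pool.Agent.Helper81.CB.MOLL
import Pool.Agent.Helper84.CB.DEG
import Pool.Agent.Helper84.CB.TRP
import Pool.Agent.Helper85.CB.RETR
import Pool.Agent.Helper90.CB.EV
import Pool.Agent.Helper91.CB.WC
import Pool.Agent.Helper94.CB.FPE
import Pool.Agent.Helper94.CB.FSH
import Pool.Agent.Helper94.CB.FSM
import Pool.Agent.Helper94.CB.SMC
import Pool.Agent.Helper94.CB.TAN
import Pool.Agent.Helper96.CB.G1
import Pool.Agent.Helper96.CB.KEY
import Pool.Agent.Helper96.CB.NEAR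

/-!
# Complex Banach conjecture: all modules assembled
-/

namespace Pool.Agent.Helper83.CB

theorem all_GRP : ST_GRP := st_GRP
theorem all_INV : ST_INV := st_INV
theorem all_CHART : ST_CHART := st_CHART
theorem all_CS : ST_CS := st_CS all_CHART
theorem all_LIE : ST_LIE := st_LIE all_GRP
theorem all_PR : ST_PR := st_PR all_GRP
theorem all_LIFT : ST_LIFT := st_LIFT
theorem all_CONV : ST_CONV := st_CONV
theorem all_SUM : ST_SUM := st_SUM all_INV
theorem all_LIM : ST_LIM := st_LIM st_G1 all_CONV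
theorem all_KEY : ST_KEY := st_KEY st_G1 all_SUM st_INTER st_MAXI st_TRANS all_CONV all_LIM
theorem all_LOC : ST_LOC := st_LOC all_KEY all_LIFT
theorem all_GLOB : ST_GLOB := st_GLOB all_LIFT
theorem all_GT : ST_GT := st_GT all_LOC all_GLOB st_HIL
theorem all_NEAR : ST_NEAR := st_NEAR all_LIFT
theorem all_RETR : ST_RETR :=
  st_RETR all_GRP all_CHART all_CS st_COER all_NEAR all_LIE all_LIFT
theorem all_FRAME : ST_FRAME := st_FRAME all_RETR
theorem all_EV : ST_EV := st_EV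
theorem all_EVEN : ST_EVEN := st_EVEN
theorem all_EQP : ST_EQP := st_EQP all_EV all_EVEN
theorem all_DEG : ST_DEG := st_DEG all_EV all_EVEN
theorem all_SHAPE : ST_SHAPE := st_SHAPE all_EVEN
theorem all_BIA : ST_BIA := st_BIA all_EV all_EVEN all_EQP
theorem all_WC : ST_WC := st_WC st_MOLL all_BIA st_SMC st_FSM
theorem all_CONN : ST_CONN := st_CONN all_GRP
theorem all_SHIFT : ST_SHIFT := st_SHIFT all_CONN all_GRP
theorem all_STRIP : ST_STRIP := st_STRIP st_PT
theorem all_GR2 : ST_GR2 := st_GR2 all_EV all_EVEN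

theorem all_OVER : ST_OVER := st_OVER st_GAUGE (st_TAN all_GRP) all_GRP
theorem all_FSH : ST_FSH := st_FSH all_OVER
theorem all_FREEZE : ST_FREEZE := st_FREEZE all_OVER
theorem all_FPE : ST_FPE := st_FPE all_OVER
theorem all_CW1 : ST_CW1 :=
  st_CW1 all_WC all_EQP all_DEG st_GLUE all_FSH all_SHIFT all_FREEZE all_FPE
    all_STRIP all_SHAPE all_EV all_EVEN all_CONN
theorem all_TRG : ST_TRG :=
  st_TRG all_WC all_EQP st_GLUE all_FSH all_FREEZE (st_TRANSG st_PT) all_EV all_EVEN all_DEG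
theorem all_MEAN : ST_MEAN := st_MEAN st_PT all_EVEN
theorem all_PROD : ST_PROD := st_PROD all_EVEN
theorem all_UNI : ST_UNI := st_UNI all_INV

theorem all_LINE : ST_LINE :=
  st_LINE all_EV all_EVEN all_WC st_TRP st_GR1 all_GR2 st_GLUE all_STRIP all_SHAPE (st_LOCAL st_PT)
theorem all_CW2 : ST_CW2 :=
  st_CW2 all_TRG st_GR1 all_GR2 all_LINE all_MEAN all_PROD

theorem all_coord {n : ℕ} (hn : n % 4 = 3)
    {N0 : E n → ℝ} {N : E (n + 1) → ℝ} (hSet : Setup n N0 N) (hU : Unitary N0) :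
    ∀ x y, N (x + y) ^ 2 + N (x - y) ^ 2 = 2 * (N x ^ 2 + N y ^ 2) :=
  coord_theorem all_EV all_EVEN all_EQP all_MEAN all_SHAPE all_CW1 all_CW2 st_TRP
    all_GRP all_LIE all_PR all_CS all_FRAME st_TORUS st_EXT all_GT
    Pool.Agent.Helper80.CB.st_EXPS Pool.Agent.Helper80.CB.main_ALG hn hSet hU

theorem all_banach {n : ℕ} (hn : n % 4 = 3)
    {V : Type*} [NormedAddCommGroup V] [NormedSpace ℂ V]
    (hV : Module.finrank ℂ V = n + 1)
    (hiso : ∀ H₁ H₂ : Submodule ℂ V, Module.finrank ℂ H₁ = n → Module.finrank ℂ H₂ = n →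
      Nonempty (H₁ ≃ₗᵢ[ℂ] H₂)) :
    Nonempty (V ≃ₗᵢ[ℂ] EuclideanSpace ℂ (Fin (n + 1))) :=
  abstract_theorem all_UNI (fun _ _ hSet hU => all_coord hn hSet hU) hV hiso

end Pool.Agent.Helper83.CB
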