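import Mathlib

/-!
# Complex Banach conjecture, n = 3 mod 4 (MP_d52cf1_gt): definitions and geometric statements

Blueprint: /team-store/cb_blueprint.md.  `E n` is complex Euclidean space `ℂ^n`.
-/

open Filter Topology

namespace Pool.Agent.Helper83.CB

/-- complex Euclidean space -/
abbrev E (n : ℕ) : Type := EuclideanSpace ℂ (Fin n)

/-- `N` is a norm on a complex vector space. -/
structure IsNorm {V : Type*} [AddCommGroup V] [Module ℂ V] (N : V → ℝ) : Prop where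
  pos : ∀ x, x ≠ 0 → 0 < N x
  smul : ∀ (c : ℂ) (x : V), N (c • x) = ‖c‖ * N x
  add : ∀ x y, N (x + y) ≤ N x + N y

/-- The subspace `A` of `H` is rotational (for the norm `N`) with complement `C`. -/
structure Rot {V : Type*} [AddCommGroup V] [Module ℂ V] (N : V → ℝ)
    (H A C : Submodule ℂ V) : Prop where
  inf : A ⊓ C = ⊥
  sup : A ⊔ C = H
  hilb : ∀ a ∈ A, ∀ b ∈ A, N (a + b) ^ 2 + N (a - b) ^ 2 = 2 * (N a ^ 2 + N b ^ 2)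
  rot : ∀ a ∈ A, ∀ a' ∈ A, ∀ c ∈ C, N a = N a' → N (a + c) = N (a' + c)

/-- `A` is a rotational subspace of `H`. -/
def IsRot {V : Type*} [AddCommGroup V] [Module ℂ V] (N : V → ℝ) (H A : Submodule ℂ V) : Prop :=
  ∃ C, Rot N H A C

/-- The isometric linear embeddings of `(ℂ^n, N0)` into `(ℂ^m, N)`. -/
def PP {n m : ℕ} (N0 : E n → ℝ) (N : E m → ℝ) : Set (E n →L[ℂ] E m) :=
  {L | ∀ z, N (L z) = N0 z}

/-- Range of a continuous linear map, as a submodule. -/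
def rg {n m : ℕ} (L : E n →L[ℂ] E m) : Submodule ℂ (E m) := LinearMap.range L.toLinearMap

/-- Kernel of a functional, as a submodule. -/
def kr {m : ℕ} (f : E m →L[ℂ] ℂ) : Submodule ℂ (E m) := LinearMap.ker f.toLinearMap

/-- Image of a submodule under a continuous linear map. -/
def im {n m : ℕ} (L : E n →L[ℂ] E m) (W : Submodule ℂ (E n)) : Submodule ℂ (E m) :=
  W.map L.toLinearMap

/-- All hyperplanes of `(ℂ^{n+1}, N)` are isometric to `(ℂ^n, N0)`. -/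
structure Setup (n : ℕ) (N0 : E n → ℝ) (N : E (n + 1) → ℝ) : Prop where
  norm0 : IsNorm N0
  norm : IsNorm N
  hyp : ∀ f : E (n + 1) →L[ℂ] ℂ, f ≠ 0 → ∃ L ∈ PP N0 N, rg L = kr f

/-- Convergence of a sequence of subspaces (of constant dimension). -/
def SubConv {m : ℕ} (A : ℕ → Submodule ℂ (E m)) (A0 : Submodule ℂ (E m)) : Prop :=
  ∃ (d : ℕ) (T : ℕ → E d →L[ℂ] E m) (T0 : E d →L[ℂ] E m),
    (∀ j, Function.Injective (T j) ∧ rg (T j) = A j) ∧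
    Function.Injective T0 ∧ rg T0 = A0 ∧ Tendsto T atTop (𝓝 T0)

/-! ## Module statements (Part 6, geometry) -/

/-- (6.1) -/
def ST_G1 : Prop := ∀ (m : ℕ) (N : E m → ℝ), IsNorm N → ∀ H A C : Submodule ℂ (E m), Rot N H A C →
  ∀ a ∈ A, ∀ c ∈ C, N a ≤ N (a + c) ∧ N c ≤ N (a + c)

/-- (INV) There are coordinates in which all linear isometries are unitary. -/
def ST_INV : Prop := ∀ (V : Type) [AddCommGroup V] [Module ℂ V] [FiniteDimensional ℂ V]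
  (N : V → ℝ), IsNorm N →
  ∃ T : V ≃ₗ[ℂ] E (Module.finrank ℂ V), ∀ g : V →ₗ[ℂ] V, (∀ x, N (g x) = N x) → ∀ x, ‖T (g x)‖ = ‖T x‖

/-- (6.2) SUM; `¬ B ≤ C` says that `A`, `B` are not orthogonal for an invariant inner product. -/
def ST_SUM : Prop := ∀ (m : ℕ) (N : E m → ℝ), IsNorm N → ∀ H A C B D : Submodule ℂ (E m),
  Rot N H A C → Rot N H B D → ¬ B ≤ C → IsRot N H (A ⊔ B)

/-- (6.3) -/
def ST_INTER : Prop := ∀ (m : ℕ) (N : E m → ℝ), IsNorm N → ∀ H W C P : Submodule ℂ (E m),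
  Rot N H W C → P ≤ H → IsRot N P (W ⊓ P)

/-- (6.4) -/
def ST_MAXI : Prop := ∀ (m : ℕ) (N : E m → ℝ), IsNorm N → ∀ H W C P B : Submodule ℂ (E m),
  Rot N H W C → P ≤ H → C ≤ P → W ⊓ P ≠ ⊥ → IsRot N P B → W ⊓ P ≤ B → IsRot N H (W ⊔ B)

/-- transport of rotational subspaces by an isometric embedding -/
def ST_TRANS : Prop := ∀ (n m : ℕ) (N0 : E n → ℝ) (N : E m → ℝ), IsNorm N0 → IsNorm N →
  ∀ L ∈ PP N0 N, Function.Injective L ∧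
    (∀ W C : Submodule ℂ (E n), Rot N0 ⊤ W C → Rot N (rg L) (im L W) (im L C)) ∧
    (∀ A : Submodule ℂ (E m), IsRot N (rg L) A → IsRot N0 ⊤ (A.comap L.toLinearMap) ∧
      im L (A.comap L.toLinearMap) = A)

/-- elementary facts on `SubConv` -/
def ST_CONV : Prop := ∀ m : ℕ,
  (∀ (d : ℕ) (A : ℕ → Submodule ℂ (E m)), (∀ j, Module.finrank ℂ (A j) = d) →
    ∃ φ : ℕ → ℕ, StrictMono φ ∧ ∃ A0 : Submodule ℂ (E m), SubConv (A ∘ φ) A0) ∧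
  (∀ (A : ℕ → Submodule ℂ (E m)) (A0 : Submodule ℂ (E m)), SubConv A A0 →
    (∀ j, Module.finrank ℂ (A j) = Module.finrank ℂ A0) ∧
    (∀ φ : ℕ → ℕ, StrictMono φ → SubConv (A ∘ φ) A0) ∧
    (∀ x ∈ A0, ∃ y : ℕ → E m, (∀ j, y j ∈ A j) ∧ Tendsto y atTop (𝓝 x)) ∧
    (∀ (y : ℕ → E m) (x : E m), (∀ j, y j ∈ A j) → Tendsto y atTop (𝓝 x) → x ∈ A0) ∧
    (∀ (f : ℕ → E m →L[ℂ] ℂ) (f0 : E m →L[ℂ] ℂ), Tendsto f atTop (𝓝 f0) → ¬ A0 ≤ kr f0 →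
      ∃ J, SubConv (fun j => A (j + J) ⊓ kr (f (j + J))) (A0 ⊓ kr f0))) ∧
  (∀ (n : ℕ) (L : ℕ → E n →L[ℂ] E m) (L0 : E n →L[ℂ] E m) (W : Submodule ℂ (E n)),
    (∀ j, Function.Injective (L j)) → Function.Injective L0 → Tendsto L atTop (𝓝 L0) →
    SubConv (fun j => im (L j) W) (im L0 W))

/-- (6.5) limits of rotational subspaces are rotational -/
def ST_LIM : Prop := ∀ (m : ℕ) (N : E m → ℝ), IsNorm N → ∀ (P A : ℕ → Submodule ℂ (E m))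
  (P0 A0 : Submodule ℂ (E m)), SubConv P P0 → SubConv A A0 → (∀ j, IsRot N (P j) (A j)) →
  IsRot N P0 A0

/-- `W1` is a rotational subspace of `(ℂ^n, N0)` of maximal dimension, with complement `C1`. -/
structure MaxRot {n : ℕ} (N0 : E n → ℝ) (W1 C1 : Submodule ℂ (E n)) : Prop where
  rot : Rot N0 ⊤ W1 C1
  max : ∀ A : Submodule ℂ (E n), IsRot N0 ⊤ A → Module.finrank ℂ A ≤ Module.finrank ℂ W1
  two : 2 ≤ Module.finrank ℂ W1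

/-- (6.6) KEY -/
def ST_KEY : Prop := ∀ (n : ℕ) (N0 : E n → ℝ) (N : E (n + 1) → ℝ), Setup n N0 N →
  ∀ W1 C1 : Submodule ℂ (E n), MaxRot N0 W1 C1 →
  ∀ (L L' : ℕ → E n →L[ℂ] E (n + 1)) (L0 : E n →L[ℂ] E (n + 1))
    (f f' : ℕ → E (n + 1) →L[ℂ] ℂ) (f0 ν : E (n + 1) →L[ℂ] ℂ) (s : ℕ → ℝ),
  (∀ j, L j ∈ PP N0 N ∧ L' j ∈ PP N0 N ∧ rg (L j) = kr (f j) ∧ rg (L' j) = kr (f' j)) →
  L0 ∈ PP N0 N → Tendsto L atTop (𝓝 L0) → Tendsto L' atTop (𝓝 L0) →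
  Tendsto f atTop (𝓝 f0) → Tendsto f' atTop (𝓝 f0) → f0 ≠ 0 → (∀ j, 0 < s j) →
  Tendsto (fun j => ((s j)⁻¹ : ℂ) • (f j - f' j)) atTop (𝓝 ν) →
  (∀ c ∈ C1, ν (L0 c) = 0) → (∃ w ∈ W1, ν (L0 w) ≠ 0) →
  ∀ᶠ j in atTop, im (L j) W1 ⊓ kr (f' j) = im (L' j) W1 ⊓ kr (f j)

/-- lifting of functionals to isometric embeddings -/
def ST_LIFT : Prop := ∀ (n : ℕ) (N0 : E n → ℝ) (N : E (n + 1) → ℝ), Setup n N0 N →
  IsCompact (PP N0 N) ∧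
  ∀ (L0 : E n →L[ℂ] E (n + 1)) (f : ℕ → E (n + 1) →L[ℂ] ℂ) (f0 : E (n + 1) →L[ℂ] ℂ),
    L0 ∈ PP N0 N → rg L0 = kr f0 → f0 ≠ 0 → Tendsto f atTop (𝓝 f0) →
    ∃ (J : ℕ) (L : ℕ → E n →L[ℂ] E (n + 1)), Tendsto L atTop (𝓝 L0) ∧
      ∀ j, J ≤ j → L j ∈ PP N0 N ∧ rg (L j) = kr (f j)

/-- `C0` is the local span of the spaces `L(W1)` at `L0`. -/
structure LocSpan {n : ℕ} (N0 : E n → ℝ) (N : E (n + 1) → ℝ) (W1 : Submodule ℂ (E n))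
    (L0 : E n →L[ℂ] E (n + 1)) (C0 : Submodule ℂ (E (n + 1))) : Prop where
  dim : Module.finrank ℂ C0 = Module.finrank ℂ W1 + 1
  near : ∃ δ > 0, ∀ L ∈ PP N0 N, ‖L - L0‖ < δ → im L W1 ≤ C0
  span : ∀ δ > 0, C0 ≤ ⨆ L : {L : E n →L[ℂ] E (n + 1) // L ∈ PP N0 N ∧ ‖L - L0‖ < δ}, im L.1 W1

/-- (6.7) -/
def ST_LOC : Prop := ∀ (n : ℕ) (N0 : E n → ℝ) (N : E (n + 1) → ℝ), Setup n N0 N →
  ∀ W1 C1 : Submodule ℂ (E n), MaxRot N0 W1 C1 → C1 ≠ ⊥ →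
  ∀ L0 ∈ PP N0 N, ∃ C0, LocSpan N0 N W1 L0 C0

/-- (6.8) -/
def ST_GLOB : Prop := ∀ (n : ℕ) (N0 : E n → ℝ) (N : E (n + 1) → ℝ), Setup n N0 N →
  ∀ W1 : Submodule ℂ (E n), 1 ≤ Module.finrank ℂ W1 → Module.finrank ℂ W1 + 1 ≤ n →
  ¬ ∀ L0 ∈ PP N0 N, ∃ C0, LocSpan N0 N W1 L0 C0

/-- the Hilbert case -/
def ST_HIL : Prop := ∀ (n : ℕ) (N0 : E n → ℝ) (N : E (n + 1) → ℝ), 2 ≤ n → Setup n N0 N →
  IsRot N0 ⊤ ⊤ → ∀ x y, N (x + y) ^ 2 + N (x - y) ^ 2 = 2 * (N x ^ 2 + N y ^ 2)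

/-- GT -/
def ST_GT : Prop := ∀ (n : ℕ) (N0 : E n → ℝ) (N : E (n + 1) → ℝ), Setup n N0 N →
  (∃ A, IsRot N0 ⊤ A ∧ 2 ≤ Module.finrank ℂ A) →
  ∀ x y, N (x + y) ^ 2 + N (x - y) ^ 2 = 2 * (N x ^ 2 + N y ^ 2)

end Pool.Agent.Helper83.CB
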