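import Pool.Agent.Helper83.CB.Defs

/-!
# Parts 1, 2 (closed subgroup facts, Lipschitz frames) and general analysis
-/

open Filter Topology MeasureTheory

namespace Pool.Agent.Helper83.CB

/-- endomorphisms of `ℂ^n` -/
abbrev M (n : ℕ) : Type := E n →L[ℂ] E n

/-- all isometries of `N0` are unitary -/
def Unitary {n : ℕ} (N0 : E n → ℝ) : Prop := ∀ g ∈ PP (n := n) (m := n) N0 N0, ∀ z, ‖g z‖ = ‖z‖

/-- `k` is the Lie algebra of the isometry group of `N0` -/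
structure LieOf {n : ℕ} (N0 : E n → ℝ) (k : Submodule ℝ (M n)) : Prop where
  mem : ∀ X, X ∈ k ↔ ∀ t : ℝ, NormedSpace.exp (t • X) ∈ PP N0 N0
  skew : ∀ X ∈ k, star X = -X
  brk : ∀ X ∈ k, ∀ Y ∈ k, X * Y - Y * X ∈ k
  ad : ∀ g ∈ PP N0 N0, ∀ X ∈ k, g * X * star g ∈ k
  seq : ∀ (g : ℕ → M n) (s : ℕ → ℝ) (X : M n), (∀ j, g j ∈ PP N0 N0) → (∀ j, 0 < s j) →
    Tendsto s atTop (𝓝 0) → Tendsto (fun j => (s j)⁻¹ • (g j - 1)) atTop (𝓝 X) → X ∈ k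

/-- (1.0), (1.1) -/
def ST_LIE : Prop := ∀ (n : ℕ) (N0 : E n → ℝ), IsNorm N0 → Unitary N0 →
  ∃ k : Submodule ℝ (M n), LieOf N0 k

/-- the isometries form a compact group of unitary operators -/
def ST_GRP : Prop := ∀ (n : ℕ) (N0 : E n → ℝ), IsNorm N0 → Unitary N0 →
  IsCompact (PP (n := n) (m := n) N0 N0) ∧ (1 : M n) ∈ PP N0 N0 ∧
  (∀ g ∈ PP (n := n) (m := n) N0 N0, ∀ h ∈ PP (n := n) (m := n) N0 N0, g * h ∈ PP N0 N0) ∧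
  (∀ g ∈ PP (n := n) (m := n) N0 N0, star g ∈ PP N0 N0 ∧ star g * g = 1 ∧ g * star g = 1)

/-- equivariant projection onto `k` -/
def ST_PR : Prop := ∀ (n : ℕ) (N0 : E n → ℝ), IsNorm N0 → Unitary N0 →
  ∀ k : Submodule ℝ (M n), LieOf N0 k →
  ∃ pr : M n →ₗ[ℝ] M n, (∀ X, pr X ∈ k) ∧ (∀ X ∈ k, pr X = X) ∧
    (∀ g ∈ PP (n := n) (m := n) N0 N0, ∀ X, pr (star g * X * g) = star g * pr X * g)

/-- inverse function theorem for `(X, Z) ↦ exp X exp Z` on complementary real subspaces -/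
def ST_CHART : Prop := ∀ (n : ℕ) (m k : Submodule ℝ (M n)), IsCompl m k →
  ∃ ρ > 0, ∃ C > 0,
    (∀ X ∈ m, ∀ X' ∈ m, ∀ Z ∈ k, ∀ Z' ∈ k, ‖X‖ < ρ → ‖X'‖ < ρ → ‖Z‖ < ρ → ‖Z'‖ < ρ →
      ‖X - X'‖ + ‖Z - Z'‖ ≤
        C * ‖NormedSpace.exp X * NormedSpace.exp Z - NormedSpace.exp X' * NormedSpace.exp Z'‖) ∧
    (∀ Y : M n, ‖Y - 1‖ < ρ → ∃ X ∈ m, ∃ Z ∈ k, ‖X‖ ≤ C * ‖Y - 1‖ ∧ ‖Z‖ ≤ C * ‖Y - 1‖ ∧
      NormedSpace.exp X * NormedSpace.exp Z = Y)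

/-- (1.2) closed subgroup theorem -/
def ST_CS : Prop := ∀ (n : ℕ) (N0 : E n → ℝ), IsNorm N0 → Unitary N0 →
  ∀ k : Submodule ℝ (M n), LieOf N0 k →
  ∀ ε > 0, ∃ δ > 0, ∀ g ∈ PP (n := n) (m := n) N0 N0, ‖g - 1‖ < δ →
    ∃ X ∈ k, ‖X‖ < ε ∧ NormedSpace.exp X = g

/-- (1.4) coercivity -/
def ST_COER : Prop := ∀ (n : ℕ) (N0 : E n → ℝ), IsNorm N0 → Unitary N0 →
  ∀ k : Submodule ℝ (M n), LieOf N0 k → ∀ m : Submodule ℝ (M n), Disjoint m k →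
  ∃ ρ > 0, ∃ c > 0, ∀ X ∈ m, ‖X‖ < ρ →
    ∃ z : E n, ‖z‖ ≤ 1 ∧ c * ‖X‖ ≤ |N0 (NormedSpace.exp X z) - N0 z|

/-- (2.1) -/
def ST_NEAR : Prop := ∀ (n : ℕ) (N0 : E n → ℝ) (N : E (n + 1) → ℝ), Setup n N0 N →
  ∀ η > 0, ∃ δ > 0, ∀ L ∈ PP N0 N, ∀ J : E n →L[ℂ] E (n + 1), ‖J - L‖ < δ →
    ∃ Y : M n, ‖Y - 1‖ < η ∧ J.comp Y ∈ PP N0 N

/-- (2.2) Lipschitz retraction onto the isometric embeddings -/
def ST_RETR : Prop := ∀ (n : ℕ) (N0 : E n → ℝ) (N : E (n + 1) → ℝ), Setup n N0 N → Unitary N0 →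
  ∃ δ > 0, ∃ C > 0, ∃ R : (E n →L[ℂ] E (n + 1)) → (E n →L[ℂ] E (n + 1)),
    (∀ L ∈ PP N0 N, R L = L) ∧
    (∀ L ∈ PP N0 N, ∀ J, ‖J - L‖ < δ → R J ∈ PP N0 N ∧ rg (R J) = rg J) ∧
    (∀ L ∈ PP N0 N, ∀ L' ∈ PP N0 N, ∀ J J', ‖J - L‖ < δ → ‖J' - L'‖ < δ →
      ‖R J - R J'‖ ≤ C * ‖J - J'‖)

/-- orthogonal projection onto a hyperplane -/
def HypProj {m : ℕ} (p : M m) : Prop :=
  p * p = p ∧ star p = p ∧ ∃ f : E m →L[ℂ] ℂ, f ≠ 0 ∧ rg p = kr f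

/-- (2.3) Lipschitz frames `L`, with left inverses `K`, on big balls -/
structure IsFrame {n : ℕ} {ι : Type} [Fintype ι] (N0 : E n → ℝ) (N : E (n + 1) → ℝ)
    (π : (ι → ℝ) → M (n + 1)) (ρ : ℝ)
    (L : (ι → ℝ) → E n →L[ℂ] E (n + 1)) (K : (ι → ℝ) → E (n + 1) →L[ℂ] E n) : Prop where
  lipL : ∃ C, LipschitzWith C L
  lipK : ∃ C, LipschitzWith C K
  bddK : ∃ C : ℝ, ∀ x, ‖K x‖ ≤ C
  mem : ∀ x ∈ Metric.closedBall (0 : ι → ℝ) ρ, L x ∈ PP N0 N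
  left : ∀ x ∈ Metric.closedBall (0 : ι → ℝ) ρ, (K x).comp (L x) = ContinuousLinearMap.id ℂ (E n)
  right : ∀ x ∈ Metric.closedBall (0 : ι → ℝ) ρ, (L x).comp (K x) = π x

def ST_FRAME : Prop := ∀ (n : ℕ) (N0 : E n → ℝ) (N : E (n + 1) → ℝ), Setup n N0 N → Unitary N0 →
  ∀ (ι : Type) [Fintype ι] (π : (ι → ℝ) → M (n + 1)) (C : NNReal), LipschitzWith C π →
  (∀ x, HypProj (π x)) → ∀ ρ : ℝ, ∃ L K, IsFrame N0 N π ρ L K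

/-! ## general analysis -/

/-- mollification of a Lipschitz map, with a.e. convergence of the derivatives -/
def ST_MOLL : Prop := ∀ (ι : Type) [Fintype ι] (W : Type) [NormedAddCommGroup W] [NormedSpace ℝ W]
  [FiniteDimensional ℝ W] (f : (ι → ℝ) → W) (C : NNReal), LipschitzWith C f →
  ∃ F : ℕ → (ι → ℝ) → W, (∀ k, ContDiff ℝ (⊤ : ℕ∞) (F k)) ∧ (∀ k, LipschitzWith C (F k)) ∧
    (∀ x, Tendsto (fun k => F k x) atTop (𝓝 (f x))) ∧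
    (∀ᵐ x, Tendsto (fun k => fderiv ℝ (F k) x) atTop (𝓝 (fderiv ℝ f x)))

end Pool.Agent.Helper83.CB
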