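import Pool.Agent.Helper83.CB.Defs2

/-!
# Parts 3, 4 (torus family, exterior algebra, Chern-Weil forms with bounded coefficients)
-/

open Filter Topology MeasureTheory

namespace Pool.Agent.Helper83.CB

/-! ## Exterior algebra as operators -/

/-- wedge operators `e μ`, contraction operators `c μ`, vacuum `v`, permutations `U σ` -/
structure Ext (ι : Type) [Fintype ι] [DecidableEq ι] where
  X : Type
  [i1 : NormedAddCommGroup X]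
  [i2 : NormedSpace ℝ X]
  [i3 : FiniteDimensional ℝ X]
  e : ι → X →L[ℝ] X
  c : ι → X →L[ℝ] X
  v : X
  U : Equiv.Perm ι → X →L[ℝ] X
  ee : ∀ μ ν, e μ * e ν = -(e ν * e μ)
  ce : ∀ μ ν, c μ * e ν + e ν * c μ = if μ = ν then 1 else 0
  cv : ∀ μ, c μ v = 0
  hv : v ≠ 0
  Uv : ∀ σ, U σ v = v
  Ue : ∀ σ μ, U σ * e μ = e (σ μ) * U σ
  Uinv : ∀ σ, U σ * U σ⁻¹ = 1

attribute [instance] Ext.i1 Ext.i2 Ext.i3

def ST_EXT : Prop := ∀ (ι : Type) [Fintype ι] [DecidableEq ι], Nonempty (Ext ι)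

section
variable {ι : Type} [Fintype ι] [DecidableEq ι]

/-- the even subalgebra -/
def Ext.ev (Λ : Ext ι) : Subalgebra ℝ (Λ.X →L[ℝ] Λ.X) :=
  Algebra.adjoin ℝ {a | ∃ μ ν, a = Λ.e μ * Λ.e ν}

/-- two-forms -/
noncomputable def Ext.two (Λ : Ext ι) (φ : ι → ι → ℝ) : Λ.X →L[ℝ] Λ.X :=
  (1 / 2 : ℝ) • ∑ μ, ∑ ν, φ μ ν • (Λ.e μ * Λ.e ν)

/-- number operator -/
def Ext.num (Λ : Ext ι) : Λ.X →L[ℝ] Λ.X := ∑ μ, Λ.e μ * Λ.c μ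

end

/-- evaluation of a real polynomial at a (commuting) family in an algebra -/
noncomputable def evc {q : ℕ} {A : Type*} [Ring A] [Algebra ℝ A] (f : Fin q → A)
    (P : MvPolynomial (Fin q) ℝ) : A :=
  ∑ s ∈ P.support, MvPolynomial.coeff s P • (List.ofFn fun i => f i ^ s i).prod

def ST_EV : Prop := ∀ (q : ℕ) (A : Type) [Ring A] [Algebra ℝ A] (f : Fin q → A),
  (∀ i j, f i * f j = f j * f i) →
  ∃ Φ : MvPolynomial (Fin q) ℝ →ₐ[ℝ] A, (∀ P, Φ P = evc f P) ∧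
    (∀ i, Φ (MvPolynomial.X i) = f i) ∧ (∀ P, evc f P ∈ Algebra.adjoin ℝ (Set.range f))

/-- even elements commute with each other and with the wedge operators -/
def ST_EVEN : Prop := ∀ (ι : Type) [Fintype ι] [DecidableEq ι] (Λ : Ext ι),
  (∀ a ∈ Λ.ev, ∀ μ, a * Λ.e μ = Λ.e μ * a) ∧ (∀ a ∈ Λ.ev, ∀ b ∈ Λ.ev, a * b = b * a) ∧
  (∀ φ, Λ.two φ ∈ Λ.ev)

section
variable {ι : Type} [Fintype ι] [DecidableEq ι]

/-- value of the polynomial `P` (in the coordinates `c`) on a matrix valued two-form -/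
noncomputable def PF {n q : ℕ} (Λ : Ext ι) (c : Fin q → (M n →ₗ[ℝ] ℝ))
    (P : MvPolynomial (Fin q) ℝ) (F : ι → ι → M n) : Λ.X →L[ℝ] Λ.X :=
  evc (fun a => Λ.two fun μ ν => c a (F μ ν)) P

/-- partial derivative -/
noncomputable def pd {W : Type*} [NormedAddCommGroup W] [NormedSpace ℝ W]
    (f : (ι → ℝ) → W) (x : ι → ℝ) (μ : ι) : W := fderiv ℝ f x (Pi.single μ 1)

/-- weakly closed forms -/
def WClosed (Λ : Ext ι) (ω : (ι → ℝ) → (Λ.X →L[ℝ] Λ.X)) : Prop :=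
  ∀ g : (ι → ℝ) → ℝ, ContDiff ℝ (⊤ : ℕ∞) g → HasCompactSupport g →
    ∑ μ, ∫ x, pd g x μ • (Λ.e μ * ω x) = 0

end

/-- polynomials with the same values on a subspace have the same value on forms with values in it -/
def ST_EQP : Prop := ∀ (ι : Type) [Fintype ι] [DecidableEq ι] (Λ : Ext ι) (n q q' : ℕ)
  (c : Fin q → (M n →ₗ[ℝ] ℝ)) (c' : Fin q' → (M n →ₗ[ℝ] ℝ)) (P : MvPolynomial (Fin q) ℝ)
  (P' : MvPolynomial (Fin q') ℝ) (f : Submodule ℝ (M n)),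
  (∀ Y ∈ f, MvPolynomial.eval (fun a => c a Y) P = MvPolynomial.eval (fun a => c' a Y) P') →
  ∀ F : ι → ι → M n, (∀ μ ν, F μ ν ∈ f) → PF Λ c P F = PF Λ c' P' F

/-- degree and permutations -/
def ST_DEG : Prop := ∀ (ι : Type) [Fintype ι] [DecidableEq ι] (Λ : Ext ι) (n q : ℕ)
  (c : Fin q → (M n →ₗ[ℝ] ℝ)) (P : MvPolynomial (Fin q) ℝ) (F : ι → ι → M n),
  (∀ d, P.IsHomogeneous d → Λ.num * PF Λ c P F - PF Λ c P F * Λ.num = (2 * d : ℝ) • PF Λ c P F) ∧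
  (∀ σ : Equiv.Perm ι, PF Λ c P F * Λ.U σ = Λ.U σ * PF Λ c P (fun μ ν => F (σ μ) (σ ν))) ∧
  (∀ μ, (∀ ν, F μ ν = 0 ∧ F ν μ = 0) → Λ.c μ * PF Λ c P F = PF Λ c P F * Λ.c μ)

/-- curvature of a smooth connection -/
noncomputable def Fsm {ι : Type} [Fintype ι] [DecidableEq ι] {n : ℕ} (A : ι → (ι → ℝ) → M n)
    (x : ι → ℝ) (μ ν : ι) : M n :=
  pd (A ν) x μ - pd (A μ) x ν + (A μ x * A ν x - A ν x * A μ x)

/-- `P` is invariant on `f` under the group generated by `exp f` -/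
def InvL {n q : ℕ} (f : Submodule ℝ (M n)) (c : Fin q → (M n →ₗ[ℝ] ℝ))
    (P : MvPolynomial (Fin q) ℝ) : Prop :=
  ∀ X ∈ f, ∀ Y ∈ f,
    MvPolynomial.eval (fun a => c a (NormedSpace.exp X * Y * NormedSpace.exp (-X))) P =
      MvPolynomial.eval (fun a => c a Y) P

/-- (4.1) -/
def ST_BIA : Prop := ∀ (ι : Type) [Fintype ι] [DecidableEq ι] (Λ : Ext ι) (n q : ℕ)
  (c : Fin q → (M n →ₗ[ℝ] ℝ)) (P : MvPolynomial (Fin q) ℝ) (f : Submodule ℝ (M n)),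
  (∀ X ∈ f, ∀ Y ∈ f, X * Y - Y * X ∈ f) → InvL f c P →
  ∀ A : ι → (ι → ℝ) → M n, (∀ μ, ContDiff ℝ (⊤ : ℕ∞) (A μ)) → (∀ μ x, A μ x ∈ f) →
    ContDiff ℝ (⊤ : ℕ∞) (fun x => PF Λ c P (Fsm A x)) ∧
    ∀ x, ∑ μ, Λ.e μ * pd (fun y => PF Λ c P (Fsm A y)) x μ = 0

/-- smooth closed forms are weakly closed -/
def ST_SMC : Prop := ∀ (ι : Type) [Fintype ι] [DecidableEq ι] (Λ : Ext ι)
  (ω : (ι → ℝ) → (Λ.X →L[ℝ] Λ.X)), ContDiff ℝ 1 ω →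
  (∀ x, ∑ μ, Λ.e μ * pd ω x μ = 0) → WClosed Λ ω

section
variable {ι : Type} [Fintype ι] [DecidableEq ι] {n : ℕ}

/-- the operator `Q0 + g(x) Q1` -/
noncomputable def Qx (g : (ι → ℝ) → ℝ) (Q0 Q1 : M n →ₗ[ℝ] M n) (x : ι → ℝ) (Y : M n) : M n :=
  Q0 Y + g x • Q1 Y

/-- the connection form `A = Q(K dL)` -/
noncomputable def Acon (K : (ι → ℝ) → E (n + 1) →L[ℂ] E n) (L : (ι → ℝ) → E n →L[ℂ] E (n + 1))
    (g : (ι → ℝ) → ℝ) (Q0 Q1 : M n →ₗ[ℝ] M n) (x : ι → ℝ) (μ : ι) : M n :=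
  Qx g Q0 Q1 x ((K x).comp (pd L x μ))

/-- the curvature of `Acon` -/
noncomputable def Fcon (K : (ι → ℝ) → E (n + 1) →L[ℂ] E n) (L : (ι → ℝ) → E n →L[ℂ] E (n + 1))
    (g : (ι → ℝ) → ℝ) (Q0 Q1 : M n →ₗ[ℝ] M n) (x : ι → ℝ) (μ ν : ι) : M n :=
  (pd g x μ • Q1 ((K x).comp (pd L x ν)) - pd g x ν • Q1 ((K x).comp (pd L x μ))) +
  Qx g Q0 Q1 x ((pd K x μ).comp (pd L x ν) - (pd K x ν).comp (pd L x μ)) +
  (Acon K L g Q0 Q1 x μ * Acon K L g Q0 Q1 x ν - Acon K L g Q0 Q1 x ν * Acon K L g Q0 Q1 x μ)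

end

/-- `Fcon` of smooth data is the curvature `Fsm` of `Acon` -/
def ST_FSM : Prop := ∀ (ι : Type) [Fintype ι] [DecidableEq ι] (n : ℕ)
  (K : (ι → ℝ) → E (n + 1) →L[ℂ] E n) (L : (ι → ℝ) → E n →L[ℂ] E (n + 1))
  (g : (ι → ℝ) → ℝ) (Q0 Q1 : M n →ₗ[ℝ] M n),
  ContDiff ℝ (⊤ : ℕ∞) K → ContDiff ℝ (⊤ : ℕ∞) L → ContDiff ℝ (⊤ : ℕ∞) g →
  (∀ μ, ContDiff ℝ (⊤ : ℕ∞) (fun x => Acon K L g Q0 Q1 x μ)) ∧
  ∀ x μ ν, Fcon K L g Q0 Q1 x μ ν = Fsm (fun μ x => Acon K L g Q0 Q1 x μ) x μ ν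

/-- (4.2) the characteristic forms of a Lipschitz connection are bounded and weakly closed -/
def ST_WC : Prop := ∀ (ι : Type) [Fintype ι] [DecidableEq ι] (Λ : Ext ι) (n q : ℕ)
  (c : Fin q → (M n →ₗ[ℝ] ℝ)) (P : MvPolynomial (Fin q) ℝ) (f : Submodule ℝ (M n)),
  (∀ X ∈ f, ∀ Y ∈ f, X * Y - Y * X ∈ f) → InvL f c P →
  ∀ (K : (ι → ℝ) → E (n + 1) →L[ℂ] E n) (L : (ι → ℝ) → E n →L[ℂ] E (n + 1)) (g : (ι → ℝ) → ℝ)
    (Q0 Q1 : M n →ₗ[ℝ] M n), (∀ X, Q0 X ∈ f) → (∀ X, Q1 X ∈ f) →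
  (∃ C, LipschitzWith C K) → (∃ C, LipschitzWith C L) → (∃ C, LipschitzWith C g) →
  (∃ C : ℝ, ∀ x, ‖K x‖ ≤ C) → (∃ C : ℝ, ∀ x, |g x| ≤ C) →
  (∃ C : ℝ, ∀ x μ ν, ‖Fcon K L g Q0 Q1 x μ ν‖ ≤ C) ∧
  (∀ x μ ν, Fcon K L g Q0 Q1 x μ ν ∈ f) ∧
  AEStronglyMeasurable (fun x => PF Λ c P (Fcon K L g Q0 Q1 x)) volume ∧
  (∃ C : ℝ, ∀ x, ‖PF Λ c P (Fcon K L g Q0 Q1 x)‖ ≤ C) ∧
  WClosed Λ (fun x => PF Λ c P (Fcon K L g Q0 Q1 x))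

/-- (4.3) pointwise gauge covariance -/
def ST_GAUGE : Prop := ∀ (ι : Type) [Fintype ι] [DecidableEq ι] (n : ℕ) (k : Submodule ℝ (M n))
  (K K' : (ι → ℝ) → E (n + 1) →L[ℂ] E n) (L L' : (ι → ℝ) → E n →L[ℂ] E (n + 1))
  (g : (ι → ℝ) → ℝ) (Q0 Q1 : M n →ₗ[ℝ] M n) (a : (ι → ℝ) → M n) (x : ι → ℝ),
  DifferentiableAt ℝ K x → DifferentiableAt ℝ L x → DifferentiableAt ℝ a x →
  (∀ᶠ y in 𝓝 x, (K y).comp (L y) = ContinuousLinearMap.id ℂ (E n)) →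
  (∀ᶠ y in 𝓝 x, star (a y) * a y = 1 ∧ a y * star (a y) = 1) →
  (∀ᶠ y in 𝓝 x, L' y = (L y).comp (a y)) →
  (∀ᶠ y in 𝓝 x, K' y = (star (a y)).comp (K y)) →
  (∀ μ, star (a x) * pd a x μ ∈ k) →
  (∀ X ∈ k, Q0 X = X ∧ Q1 X = 0) →
  (∀ X, Q0 (star (a x) * X * a x) = star (a x) * Q0 X * a x) →
  (∀ X, Q1 (star (a x) * X * a x) = star (a x) * Q1 X * a x) →
  (∀ Z ∈ k, ∀ X, Q0 (Z * X - X * Z) = Z * Q0 X - Q0 X * Z) →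
  (∀ Z ∈ k, ∀ X, Q1 (Z * X - X * Z) = Z * Q1 X - Q1 X * Z) →
  ∀ μ ν, Fcon K' L' g Q0 Q1 x μ ν = star (a x) * Fcon K L g Q0 Q1 x μ ν * a x

/-- (1.1) logarithmic derivatives of group valued functions are in the Lie algebra -/
def ST_TAN : Prop := ∀ (n : ℕ) (N0 : E n → ℝ), IsNorm N0 → Unitary N0 →
  ∀ k : Submodule ℝ (M n), LieOf N0 k → ∀ (ι : Type) [Fintype ι] [DecidableEq ι]
  (a : (ι → ℝ) → M n) (x : ι → ℝ), DifferentiableAt ℝ a x → (∀ᶠ y in 𝓝 x, a y ∈ PP N0 N0) →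
  ∀ μ, star (a x) * pd a x μ ∈ k

/-- admissible projection data -/
structure QData {n : ℕ} (N0 : E n → ℝ) (k : Submodule ℝ (M n)) (Q0 Q1 : M n →ₗ[ℝ] M n) : Prop where
  fix : ∀ X ∈ k, Q0 X = X ∧ Q1 X = 0
  ad0 : ∀ g ∈ PP (n := n) (m := n) N0 N0, ∀ X, Q0 (star g * X * g) = star g * Q0 X * g
  ad1 : ∀ g ∈ PP (n := n) (m := n) N0 N0, ∀ X, Q1 (star g * X * g) = star g * Q1 X * g

/-- frames over the same projection differ by a gauge transformation -/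
def ST_OVER : Prop := ∀ (n : ℕ) (N0 : E n → ℝ) (N : E (n + 1) → ℝ), Setup n N0 N → Unitary N0 →
  ∀ k : Submodule ℝ (M n), LieOf N0 k → ∀ (Q0 Q1 : M n →ₗ[ℝ] M n), QData N0 k Q0 Q1 →
  ∀ (ι : Type) [Fintype ι] [DecidableEq ι] (O : Set (ι → ℝ)) (π : (ι → ℝ) → M (n + 1))
    (K K' : (ι → ℝ) → E (n + 1) →L[ℂ] E n) (L L' : (ι → ℝ) → E n →L[ℂ] E (n + 1))
    (g : (ι → ℝ) → ℝ), IsOpen O → (∀ x, star (π x) = π x) →
  (∃ C, LipschitzOnWith C K O) → (∃ C, LipschitzOnWith C K' O) → (∃ C, LipschitzOnWith C L O) →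
  (∃ C, LipschitzOnWith C L' O) →
  (∀ x ∈ O, L x ∈ PP N0 N ∧ (K x).comp (L x) = ContinuousLinearMap.id ℂ (E n) ∧
    (L x).comp (K x) = π x) →
  (∀ x ∈ O, L' x ∈ PP N0 N ∧ (K' x).comp (L' x) = ContinuousLinearMap.id ℂ (E n) ∧
    (L' x).comp (K' x) = π x) →
  (∀ x ∈ O, (K x).comp (L' x) ∈ PP N0 N0 ∧ L' x = (L x).comp ((K x).comp (L' x)) ∧
    K' x = (star ((K x).comp (L' x))).comp (K x)) ∧
  ∀ᵐ x, x ∈ O → ∀ μ ν, Fcon K' L' g Q0 Q1 x μ ν =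
    star ((K x).comp (L' x)) * Fcon K L g Q0 Q1 x μ ν * (K x).comp (L' x)

/-- an open subgroup `S` of the isometry group -/
structure OpenSub {n : ℕ} (N0 : E n → ℝ) (S : Set (M n)) : Prop where
  sub : S ⊆ PP N0 N0
  one : (1 : M n) ∈ S
  mul : ∀ g ∈ S, ∀ h ∈ S, g * h ∈ S
  star : ∀ g ∈ S, Star.star g ∈ S
  opn : ∃ δ > 0, ∀ g ∈ PP (n := n) (m := n) N0 N0, ‖g - 1‖ < δ → g ∈ S

/-- continuous maps from connected sets to the isometry group stay in a coset of `S` -/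
def ST_CONN : Prop := ∀ (n : ℕ) (N0 : E n → ℝ), IsNorm N0 → Unitary N0 → ∀ S : Set (M n),
  OpenSub N0 S → ∀ (T : Type) [TopologicalSpace T] (O : Set T) (a : T → M n), IsPreconnected O →
  ContinuousOn a O → (∀ x ∈ O, a x ∈ PP N0 N0) → (∃ x ∈ O, a x ∈ S) → ∀ x ∈ O, a x ∈ S

/-! ## Means over the torus -/

section
variable {ι : Type} [Fintype ι] [DecidableEq ι]

/-- unit cube -/
def cube (ι : Type) : Set (ι → ℝ) := Set.pi Set.univ fun _ => Set.Ico (0 : ℝ) 1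

/-- bounded periodic even weakly closed forms -/
structure Good (Λ : Ext ι) (ω : (ι → ℝ) → (Λ.X →L[ℝ] Λ.X)) : Prop where
  meas : AEStronglyMeasurable ω volume
  bdd : ∃ C : ℝ, ∀ x, ‖ω x‖ ≤ C
  per : ∀ x μ, ω (x + Pi.single μ 1) = ω x
  ev : ∀ x, ω x ∈ Λ.ev
  closed : WClosed Λ ω

/-- `t` mod 1 is in the middle third -/
def inStrip (t : ℝ) : Prop := Int.fract t ∈ Set.Ioo (1 / 3 : ℝ) (2 / 3)

end

/-- periodic test functions -/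
def ST_PT : Prop := ∀ (ι : Type) [Fintype ι] [DecidableEq ι] (Λ : Ext ι)
  (ω : (ι → ℝ) → (Λ.X →L[ℝ] Λ.X)), Good Λ ω →
  ∀ g : (ι → ℝ) → ℝ, ContDiff ℝ (⊤ : ℕ∞) g → (∀ x μ, g (x + Pi.single μ 1) = g x) →
  ∑ μ, ∫ x in cube ι, pd g x μ • (Λ.e μ * ω x) = 0

/-- (4.4) means are multiplicative -/
def ST_MEAN : Prop := ∀ (ι : Type) [Fintype ι] [DecidableEq ι] (Λ : Ext ι)
  (ω η : (ι → ℝ) → (Λ.X →L[ℝ] Λ.X)), Good Λ ω → Good Λ η →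
  ∫ x in cube ι, ω x * η x = (∫ x in cube ι, ω x) * ∫ x in cube ι, η x

/-- periodisation of a weakly closed form -/
def ST_GLUE : Prop := ∀ (ι : Type) [Fintype ι] [DecidableEq ι] (Λ : Ext ι)
  (ω : (ι → ℝ) → (Λ.X →L[ℝ] Λ.X)), AEStronglyMeasurable ω volume → (∃ C : ℝ, ∀ x, ‖ω x‖ ≤ C) →
  (∀ x, ω x ∈ Λ.ev) → WClosed Λ ω →
  (∀ μ, ∀ᵐ x : ι → ℝ, (∀ ν, -2 ≤ x ν ∧ x ν ≤ 2) → x μ ≤ 1 → ω (x + Pi.single μ 1) = ω x) →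
  Good Λ (fun x => ω fun i => Int.fract (x i))

/-- (4.5) first half -/
def ST_STRIP : Prop := ∀ (ι : Type) [Fintype ι] [DecidableEq ι] (Λ : Ext ι)
  (ω : (ι → ℝ) → (Λ.X →L[ℝ] Λ.X)), Good Λ ω → ∀ μ ν, μ ≠ ν →
  (∀ᵐ x, inStrip (x ν) → Λ.c μ * ω x = ω x * Λ.c μ) →
  Λ.e ν * (Λ.c μ * (∫ x in cube ι, ω x) - (∫ x in cube ι, ω x) * Λ.c μ) = 0

/-- localisation of the mean of a coefficient of a two-form -/
def ST_LOCAL : Prop := ∀ (ι : Type) [Fintype ι] [DecidableEq ι] (Λ : Ext ι)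
  (φ : (ι → ℝ) → ι → ι → ℝ), (∀ x μ ν, φ x μ ν = -φ x ν μ) →
  (∀ μ ν, AEStronglyMeasurable (fun x => φ x μ ν) volume) → (∃ C : ℝ, ∀ x μ ν, |φ x μ ν| ≤ C) →
  Good Λ (fun x => Λ.two (φ x)) → ∀ μ ν, μ ≠ ν → ∀ G : ℝ → ℝ → ℝ,
  Measurable (Function.uncurry G) → (∃ C : ℝ, ∀ s t, |G s t| ≤ C) →
  (∀ᵐ x, (∀ l, l ≠ μ → l ≠ ν → inStrip (x l)) → φ x μ ν = G (x μ) (x ν)) →
  ∫ x in cube ι, φ x μ ν = ∫ s in (0 : ℝ)..1, ∫ t in (0 : ℝ)..1, G s t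

/-- (4.7) transgression in the variable `t` -/
def ST_TRANSG : Prop := ∀ (ι : Type) [Fintype ι] [DecidableEq ι] (Λ : Ext ι) (t : ι)
  (ω ω0 ω1 : (ι → ℝ) → (Λ.X →L[ℝ] Λ.X)), Good Λ ω → Good Λ ω0 → Good Λ ω1 →
  (∀ᵐ x, Λ.c t * ω0 x = ω0 x * Λ.c t) → (∀ᵐ x, Λ.c t * ω1 x = ω1 x * Λ.c t) →
  (∃ δ > 0, (∀ᵐ x, |x t| < δ → ω x = ω0 x) ∧ (∀ᵐ x, |x t - 1 / 2| < δ → ω x = ω1 x)) →
  ∫ x in cube ι, ω0 x = ∫ x in cube ι, ω1 x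

/-! ## The torus family -/

/-- coordinates: `none` is the auxiliary variable `t`, `some (i, false)`, `some (i, true)` are the
real and imaginary part of `z_i` -/
abbrev Ix (n : ℕ) : Type := Option (Fin n × Bool)

/-- action of permutations of the `z_i` on coordinates -/
def sI {n : ℕ} (σ : Equiv.Perm (Fin n)) : Equiv.Perm (Ix n) :=
  Equiv.optionCongr (Equiv.prodCongr σ (Equiv.refl Bool))

/-- curvature of the line bundle orthogonal to the hyperplanes -/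
noncomputable def fpi {ι : Type} [Fintype ι] [DecidableEq ι] {m : ℕ} (π : (ι → ℝ) → M m)
    (x : ι → ℝ) (μ ν : ι) : ℝ :=
  ((-Complex.I) * LinearMap.trace ℂ (E m)
    (((1 - π x) * (pd π x μ * pd π x ν - pd π x ν * pd π x μ) : M m) : E m →ₗ[ℂ] E m)).re

/-- the properties of the torus family of hyperplanes -/
structure Torus (n : ℕ) (π : (Ix n → ℝ) → M (n + 1)) (G : ℝ → ℝ → ℝ) : Prop where
  lip : ∃ C, LipschitzWith C π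
  proj : ∀ x, HypProj (π x)
  per : ∀ x μ, π (x + Pi.single μ 1) = π x
  tin : ∀ x s, π (Function.update x none s) = π x
  sym : ∀ (σ : Equiv.Perm (Fin n)) (x : Ix n → ℝ), π (x ∘ sI σ) = π x
  strip : ∀ (x : Ix n → ℝ) i b s, inStrip (x (some (i, !b))) →
    π (Function.update x (some (i, b)) s) = π x
  Gm : Measurable (Function.uncurry G)
  Gb : ∃ C : ℝ, ∀ s t, |G s t| ≤ C
  Gpos : 0 < ∫ s in (0 : ℝ)..1, ∫ t in (0 : ℝ)..1, G s t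
  loc : ∀ i, ∀ᵐ x : Ix n → ℝ, (∀ j, j ≠ i → ∀ b, inStrip (x (some (j, b)))) →
    fpi π x (some (i, false)) (some (i, true)) = G (x (some (i, false))) (x (some (i, true)))

/-- Part 3 -/
def ST_TORUS : Prop := ∀ n : ℕ, ∃ π G, Torus n π G

/-- (4.5) second half -/
def ST_SHAPE : Prop := ∀ (n : ℕ) (Λ : Ext (Ix n)),
  let Ω : Λ.X →L[ℝ] Λ.X := ∑ i : Fin n, Λ.e (some (i, false)) * Λ.e (some (i, true))
  (∀ (d : ℕ) (w : Λ.X →L[ℝ] Λ.X), w ∈ Λ.ev → Λ.c none * w = w * Λ.c none →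
    (∀ i b, Λ.e (some (i, !b)) * (Λ.c (some (i, b)) * w - w * Λ.c (some (i, b))) = 0) →
    (∀ σ : Equiv.Perm (Fin n), w * Λ.U (sI σ) = Λ.U (sI σ) * w) →
    Λ.num * w - w * Λ.num = (2 * d : ℝ) • w → ∃ a : ℝ, w = a • Ω ^ d) ∧
  (∀ d, d ≤ n → (Ω ^ d) Λ.v ≠ 0) ∧
  (∀ (φ : Ix n → Ix n → ℝ) (a : ℝ), (∀ μ ν, φ μ ν = -φ ν μ) → Λ.two φ = a • Ω →
    ∀ i, φ (some (i, false)) (some (i, true)) = a)

/-- (4.6), pointwise formula for the curvature of the Grassmann connection -/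
def ST_GR1 : Prop := ∀ (ι : Type) [Fintype ι] [DecidableEq ι] (n : ℕ)
  (K : (ι → ℝ) → E (n + 1) →L[ℂ] E n) (L : (ι → ℝ) → E n →L[ℂ] E (n + 1))
  (π : (ι → ℝ) → M (n + 1)) (x : ι → ℝ),
  DifferentiableAt ℝ K x → DifferentiableAt ℝ L x →
  (∀ᶠ y in 𝓝 x, (K y).comp (L y) = ContinuousLinearMap.id ℂ (E n)) →
  (∀ᶠ y in 𝓝 x, (L y).comp (K y) = π y) → (∀ᶠ y in 𝓝 x, star (π y) = π y) →
  (∀ μ ν, Fcon K L (fun _ => 0) LinearMap.id 0 x μ ν =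
    (K x).comp ((pd π x μ * pd π x ν - pd π x ν * pd π x μ).comp (L x))) ∧
  (∀ μ, star (pd π x μ) = pd π x μ) ∧ (∀ μ, pd π x μ = π x * pd π x μ + pd π x μ * π x)

/-- (4.6), trace polynomials of the Grassmann connection -/
def ST_GR2 : Prop := ∀ (ι : Type) [Fintype ι] [DecidableEq ι] (Λ : Ext ι) (n q j : ℕ)
  (c : Fin q → (M n →ₗ[ℝ] ℝ)) (P : MvPolynomial (Fin q) ℝ)
  (K : E (n + 1) →L[ℂ] E n) (L : E n →L[ℂ] E (n + 1)) (π : M (n + 1)) (D : ι → M (n + 1)),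
  1 ≤ j →
  (∀ Y : M n, MvPolynomial.eval (fun a => c a Y) P =
    (LinearMap.trace ℂ (E n) ((((-Complex.I) • Y) ^ j : M n) : E n →ₗ[ℂ] E n)).re) →
  K.comp L = ContinuousLinearMap.id ℂ (E n) → L.comp K = π → HypProj π →
  (∀ μ, star (D μ) = D μ) → (∀ μ, D μ = π * D μ + D μ * π) →
  PF Λ c P (fun μ ν => K.comp ((D μ * D ν - D ν * D μ).comp L)) =
    -(Λ.two (fun μ ν => ((-Complex.I) * LinearMap.trace ℂ (E (n + 1))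
      (((1 - π) * (D μ * D ν - D ν * D μ) : M (n + 1)) : E (n + 1) →ₗ[ℂ] E (n + 1))).re)) ^ j

end Pool.Agent.Helper83.CB
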