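import Pool.Agent.Helper83.CB.Defs4
import Pool.Agent.Helper80.CB.Final

/-!
# Final assembly, first part: matrices and operators, the group data
-/

open Filter Topology MeasureTheory Matrix

namespace Pool.Agent.Helper83.CB

open Pool.Agent.Helper80.CB (Mat Cpt Conn val InvP TruncHom)

/-- matrices as operators -/
noncomputable def tc (n : ℕ) : Mat n ≃⋆ₐ[ℂ] M n := Matrix.toEuclideanCLM (n := Fin n) (𝕜 := ℂ)

theorem tc_cont (n : ℕ) : Continuous (tc n) :=
  LinearMap.continuous_of_finiteDimensional (tc n).toAlgEquiv.toLinearMap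

theorem tc_symm_cont (n : ℕ) : Continuous (tc n).symm :=
  LinearMap.continuous_of_finiteDimensional (tc n).symm.toAlgEquiv.toLinearMap

theorem tc_inj (n : ℕ) : Function.Injective (tc n) := EquivLike.injective (tc n)

theorem tc_symm_exp {n : ℕ} (X : M n) :
    (tc n).symm (NormedSpace.exp X) = NormedSpace.exp ((tc n).symm X) := by
  let _ : NormedRing (Mat n) := Matrix.linftyOpNormedRing
  let _ : NormedAlgebra ℂ (Mat n) := Matrix.linftyOpNormedAlgebra
  let _ : NormedAlgebra ℚ (Mat n) := NormedAlgebra.restrictScalars ℚ ℂ (Mat n)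
  let _ : NormedAlgebra ℚ (M n) := NormedAlgebra.restrictScalars ℚ ℂ (M n)
  exact NormedSpace.map_exp (tc n).symm (tc_symm_cont n) X

theorem tc_exp {n : ℕ} (X : Mat n) :
    tc n (NormedSpace.exp X) = NormedSpace.exp (tc n X) := by
  have h := tc_symm_exp (tc n X)
  rw [StarAlgEquiv.symm_apply_apply] at h
  rw [← h, StarAlgEquiv.apply_symm_apply]

theorem tc_smul {n : ℕ} (a : ℂ) (X : Mat n) : tc n (a • X) = a • tc n X := map_smul _ _ _

theorem tc_symm_smul {n : ℕ} (a : ℂ) (X : M n) : (tc n).symm (a • X) = a • (tc n).symm X :=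
  map_smul _ _ _

theorem tc_symm_rsmul {n : ℕ} (a : ℝ) (X : M n) : (tc n).symm (a • X) = a • (tc n).symm X := by
  have h1 : a • X = (a : ℂ) • X := by
    ext v i; simp
  have h2 : a • (tc n).symm X = (a : ℂ) • (tc n).symm X := by
    ext i j; simp
  rw [h1, h2, tc_symm_smul]

theorem tc_star {n : ℕ} (X : Mat n) : tc n Xᴴ = star (tc n X) := by
  rw [← Matrix.star_eq_conjTranspose]; exact map_star _ _

theorem tc_symm_star {n : ℕ} (X : M n) : (tc n).symm (star X) = ((tc n).symm X)ᴴ := by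
  apply tc_inj n
  rw [tc_star, StarAlgEquiv.apply_symm_apply, StarAlgEquiv.apply_symm_apply]

theorem tc_apply {n : ℕ} (A : Mat n) (x : E n) : WithLp.ofLp (tc n A x) = A *ᵥ (WithLp.ofLp x) :=
  rfl

theorem tc_trace {n : ℕ} (A : Mat n) :
    LinearMap.trace ℂ (E n) ((tc n A : M n) : E n →ₗ[ℂ] E n) = A.trace := by
  have h : ((tc n A : M n) : E n →ₗ[ℂ] E n) = Matrix.toLin (PiLp.basisFun 2 ℂ (Fin n))
      (PiLp.basisFun 2 ℂ (Fin n)) A := by
    have h1 := Matrix.coe_toEuclideanCLM_eq_toEuclideanLin (n := Fin n) (𝕜 := ℂ) A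
    have h2 : (Matrix.toEuclideanLin : Matrix (Fin n) (Fin n) ℂ ≃ₗ[ℂ] _) = _ :=
      Matrix.toLpLin_eq_toLin (m := Fin n) (n := Fin n) (R := ℂ) 2 2
    rw [h2] at h1
    exact h1
  rw [h, Matrix.trace_toLin_eq]

theorem trace_symm {n : ℕ} (Y : M n) :
    LinearMap.trace ℂ (E n) (Y : E n →ₗ[ℂ] E n) = ((tc n).symm Y).trace := by
  rw [← tc_trace, StarAlgEquiv.apply_symm_apply]

/-- the Hermitian version of the Lie algebra, as matrices -/
noncomputable def hmat {n : ℕ} (k : Submodule ℝ (M n)) : Submodule ℝ (Mat n) where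
  carrier := {X | tc n (Complex.I • X) ∈ k}
  add_mem' := by
    intro a b ha hb
    simp only [Set.mem_ofPred_eq] at *
    rw [smul_add, map_add]; exact k.add_mem ha hb
  zero_mem' := by
    simp only [Set.mem_ofPred_eq, smul_zero, map_zero]; exact k.zero_mem
  smul_mem' := by
    intro c x hx
    simp only [Set.mem_ofPred_eq] at *
    have h1 : Complex.I • c • x = (c : ℂ) • (Complex.I • x) := by
      ext i j; simp [Matrix.smul_apply]; ring
    have h2 : tc n (Complex.I • c • x) = c • tc n (Complex.I • x) := by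
      rw [h1, tc_smul]
      ext v i; simp
    rw [h2]; exact k.smul_mem _ hx

theorem mem_hmat {n : ℕ} (k : Submodule ℝ (M n)) (X : Mat n) :
    X ∈ hmat k ↔ tc n (Complex.I • X) ∈ k := Iff.rfl

/-- the isometry group as matrices -/
def gmat {n : ℕ} (N0 : E n → ℝ) : Set (Mat n) := {g | tc n g ∈ PP N0 N0}

theorem small_of_entries {n : ℕ} (ε : ℝ) (hε : 0 < ε) :
    ∃ δ : ℝ, 0 < δ ∧ ∀ X : Mat n, (∀ i j, ‖X i j‖ < δ) → ‖tc n X‖ < ε := by
  set C : ℝ := ∑ i : Fin n, ∑ j : Fin n, ‖tc n (Matrix.single i j 1)‖ with hC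
  have hC0 : 0 ≤ C := Finset.sum_nonneg fun i _ => Finset.sum_nonneg fun j _ => norm_nonneg _
  refine ⟨ε / (C + 1), by positivity, fun X hX => ?_⟩
  have h1 : ‖tc n X‖ ≤ (ε / (C + 1)) * C := by
    conv_lhs => rw [Matrix.matrix_eq_sum_single X]
    rw [map_sum]
    refine (norm_sum_le _ _).trans ?_
    rw [hC, Finset.mul_sum]
    refine Finset.sum_le_sum fun i _ => ?_
    rw [map_sum, Finset.mul_sum]
    refine (norm_sum_le _ _).trans (Finset.sum_le_sum fun j _ => ?_)
    have h2 : Matrix.single i j (X i j) = X i j • Matrix.single i j (1 : ℂ) := by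
      rw [Matrix.smul_single]; simp
    rw [h2, tc_smul, norm_smul]
    exact mul_le_mul_of_nonneg_right (hX i j).le (norm_nonneg _)
  refine lt_of_le_of_lt h1 ?_
  rw [div_mul_eq_mul_div, div_lt_iff₀ (by positivity)]
  nlinarith

theorem entry_le {n : ℕ} (X : Mat n) (i j : Fin n) : ‖X i j‖ ≤ ‖tc n X‖ := by
  have h1 : X i j = WithLp.ofLp (tc n X (EuclideanSpace.single j (1 : ℂ))) i := by
    rw [tc_apply]
    simp
  rw [h1]
  refine (PiLp.norm_apply_le (p := 2) (tc n X (EuclideanSpace.single j (1 : ℂ))) i).trans ?_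
  refine ((tc n X).le_opNorm _).trans ?_
  simp

theorem entries_small {n : ℕ} (ε : ℝ) (hε : 0 < ε) :
    ∃ δ : ℝ, 0 < δ ∧ ∀ X : Mat n, ‖tc n X‖ < δ → ∀ i j, ‖X i j‖ < ε :=
  ⟨ε, hε, fun X hX i j => lt_of_le_of_lt (entry_le X i j) hX⟩

theorem fin_data (hGRP : ST_GRP) (hCS : ST_CS) (hEXPS : Pool.Agent.Helper80.CB.ST_EXPS)
    {n : ℕ} {N0 : E n → ℝ} (hN : IsNorm N0) (hU : Unitary N0) {k : Submodule ℝ (M n)}
    (hk : LieOf N0 k) :
    ∃ D : Cpt n, D.h = hmat k ∧ D.S = {g | ∃ X ∈ hmat k, NormedSpace.exp (Complex.I • X) = g} := by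
  obtain ⟨hc, h1, hm, hs⟩ := hGRP n N0 hN hU
  have hsk : ∀ X, X ∈ hmat k ↔ Xᴴ = X ∧
      ∀ t : ℝ, NormedSpace.exp (((t : ℂ) * Complex.I) • X) ∈ gmat N0 := by
    intro X
    have key : (∀ t : ℝ, NormedSpace.exp (((t : ℂ) * Complex.I) • X) ∈ gmat N0) ↔
        tc n (Complex.I • X) ∈ k := by
      rw [hk.mem]
      refine forall_congr' fun t => ?_
      show tc n (NormedSpace.exp (((t : ℂ) * Complex.I) • X)) ∈ PP N0 N0 ↔ _
      rw [tc_exp]
      have : tc n (((t : ℂ) * Complex.I) • X) = t • tc n (Complex.I • X) := by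
        rw [mul_smul, tc_smul]; ext v i; simp
      rw [this]
    rw [key]
    constructor
    · intro h
      refine ⟨?_, h⟩
      have h2 := hk.skew _ h
      rw [← tc_star] at h2
      have h3 : (Complex.I • X)ᴴ = -(Complex.I • X) := by
        apply tc_inj n
        rw [h2, map_neg]
      rw [Matrix.conjTranspose_smul] at h3
      have h4 : Complex.I • Xᴴ = Complex.I • X := by
        have : star Complex.I = -Complex.I := by simp
        rw [this, neg_smul] at h3
        exact neg_injective h3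
      exact smul_right_injective _ Complex.I_ne_zero h4
    · exact fun h => h.2
  refine hEXPS n (gmat N0) (hmat k) ?_ ?_ ?_ ?_ ?_ hsk ?_
  · show tc n 1 ∈ PP N0 N0
    rw [map_one]; exact h1
  · intro g hg g' hg'
    show tc n (g * g') ∈ PP N0 N0
    rw [map_mul]; exact hm _ hg _ hg'
  · intro g hg
    show tc n gᴴ ∈ PP N0 N0
    rw [tc_star]; exact (hs _ hg).1
  · intro g hg
    apply tc_inj n
    rw [map_mul, tc_star, map_one]
    exact (hs _ hg).2.1
  · exact hc.isClosed.preimage (tc_cont n)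
  · intro ε hε
    obtain ⟨δ1, hδ1, hd1⟩ := entries_small (n := n) ε hε
    obtain ⟨δ2, hδ2, hd2⟩ := hCS n N0 hN hU k hk δ1 hδ1
    obtain ⟨δ3, hδ3, hd3⟩ := small_of_entries (n := n) δ2 hδ2
    refine ⟨δ3, hδ3, fun g hg hgs => ?_⟩
    have h4 := hd3 (g - 1) hgs
    rw [map_sub, map_one] at h4
    obtain ⟨X, hX, hXn, hXe⟩ := hd2 (tc n g) hg h4
    have hI : Complex.I • ((-Complex.I) • (tc n).symm X) = (tc n).symm X := by
      rw [smul_smul]; simp
    refine ⟨(-Complex.I) • (tc n).symm X, ?_, ?_, ?_⟩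
    · rw [mem_hmat, hI, StarAlgEquiv.apply_symm_apply]; exact hX
    · intro i j
      have := hd1 ((tc n).symm X) (by rw [StarAlgEquiv.apply_symm_apply]; exact hXn) i j
      simpa [Matrix.smul_apply] using this
    · rw [hI, ← tc_symm_exp, hXe, StarAlgEquiv.symm_apply_apply]

end Pool.Agent.Helper83.CB
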