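import Pool.Agent.Helper83.CB.FinA

/-!
# Final assembly, second part: the truncated homomorphism
-/

open Filter Topology MeasureTheory Matrix

namespace Pool.Agent.Helper83.CB

open Pool.Agent.Helper80.CB (Mat Cpt Conn val InvP TruncHom)

/-- the open subgroup of the isometry group given by `D` -/
def Sop {n : ℕ} (D : Cpt n) : Set (M n) := {g | (tc n).symm g ∈ D.S}

theorem sop_open (hCS : ST_CS) {n : ℕ} {N0 : E n → ℝ} (hN : IsNorm N0) (hU : Unitary N0)
    {k : Submodule ℝ (M n)} (hk : LieOf N0 k) {D : Cpt n}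
    (hS : D.S = {g | ∃ X ∈ hmat k, NormedSpace.exp (Complex.I • X) = g}) :
    OpenSub N0 (Sop D) := by
  refine ⟨?_, ?_, ?_, ?_, ?_⟩
  · intro g hg
    have hg' : (tc n).symm g ∈ D.S := hg
    rw [hS] at hg'
    obtain ⟨X, hX, hXg⟩ := hg'
    have h1 : g = NormedSpace.exp (tc n (Complex.I • X)) := by
      rw [← tc_exp, hXg, StarAlgEquiv.apply_symm_apply]
    have h2 := (hk.mem _).mp hX 1
    rw [one_smul] at h2
    rw [h1]; exact h2
  · show (tc n).symm 1 ∈ D.S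
    rw [map_one]; exact D.one_mem
  · intro g hg h hh
    show (tc n).symm (g * h) ∈ D.S
    rw [map_mul]; exact D.mul_mem _ hg _ hh
  · intro g hg
    show (tc n).symm (star g) ∈ D.S
    rw [tc_symm_star]; exact D.star_mem _ hg
  · obtain ⟨δ, hδ, h⟩ := hCS n N0 hN hU k hk 1 one_pos
    refine ⟨δ, hδ, fun g hg hgd => ?_⟩
    obtain ⟨X, hX, -, hXg⟩ := h g hg hgd
    show (tc n).symm g ∈ D.S
    rw [hS]
    have hI : Complex.I • ((-Complex.I) • (tc n).symm X) = (tc n).symm X := by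
      rw [smul_smul]; simp
    refine ⟨(-Complex.I) • (tc n).symm X, ?_, ?_⟩
    · rw [mem_hmat, hI, StarAlgEquiv.apply_symm_apply]; exact hX
    · rw [hI, ← tc_symm_exp, hXg]

/-- the linear map `Y ↦ -i pr Y`, as a matrix -/
noncomputable def Jmat {n : ℕ} (pr : M n →ₗ[ℝ] M n) : M n →ₗ[ℝ] Mat n where
  toFun Y := (-Complex.I) • (tc n).symm (pr Y)
  map_add' Y Z := by rw [map_add, map_add, smul_add]
  map_smul' a Y := by
    rw [map_smul, tc_symm_rsmul]
    ext i j; simp [Matrix.smul_apply]; ring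

theorem Jmat_mem {n : ℕ} {pr : M n →ₗ[ℝ] M n} {k : Submodule ℝ (M n)} (hpr : ∀ X, pr X ∈ k)
    {D : Cpt n} (hD : D.h = hmat k) (Y : M n) : Jmat pr Y ∈ D.h := by
  rw [hD, mem_hmat]
  have hI : Complex.I • ((-Complex.I) • (tc n).symm (pr Y)) = (tc n).symm (pr Y) := by
    rw [smul_smul]; simp
  show tc n (Complex.I • ((-Complex.I) • (tc n).symm (pr Y))) ∈ k
  rw [hI, StarAlgEquiv.apply_symm_apply]; exact hpr Y

/-- coordinates -/
noncomputable def cco {n q : ℕ} {pr : M n →ₗ[ℝ] M n} {k : Submodule ℝ (M n)}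
    (hpr : ∀ X, pr X ∈ k) {D : Cpt n} (hD : D.h = hmat k) (b : Module.Basis (Fin q) ℝ D.h) :
    Fin q → (M n →ₗ[ℝ] ℝ) :=
  fun a => (b.coord a).comp ((Jmat pr).codRestrict D.h (Jmat_mem hpr hD))

theorem cco_eval {n q : ℕ} {pr : M n →ₗ[ℝ] M n} {k : Submodule ℝ (M n)}
    (hpr : ∀ X, pr X ∈ k) {D : Cpt n} (hD : D.h = hmat k) (b : Module.Basis (Fin q) ℝ D.h)
    (Y : M n) (P : MvPolynomial (Fin q) ℝ) :
    MvPolynomial.eval (fun a => cco hpr hD b a Y) P = val b ⟨Jmat pr Y, Jmat_mem hpr hD Y⟩ P := rfl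

theorem cco_inv {n q : ℕ} {N0 : E n → ℝ} {pr : M n →ₗ[ℝ] M n} {k : Submodule ℝ (M n)}
    (hpr : ∀ X, pr X ∈ k) (hQ : QData N0 k pr 0) {D : Cpt n} (hD : D.h = hmat k)
    (hS : Sop D ⊆ PP N0 N0) (b : Module.Basis (Fin q) ℝ D.h)
    (P : MvPolynomial (Fin q) ℝ) (hP : InvP D b P) :
    InvS (Sop D) k (cco hpr hD b) P := by
  intro g hg Y hY
  rw [cco_eval, cco_eval]
  have h1 : ((tc n).symm g)ᴴ ∈ D.S := D.star_mem _ hg
  have h2 := hP _ h1 ⟨Jmat pr Y, Jmat_mem hpr hD Y⟩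
  rw [← h2]
  congr 1
  apply Subtype.ext
  show (-Complex.I) • (tc n).symm (pr (star g * Y * g)) =
    ((tc n).symm g)ᴴ * ((-Complex.I) • (tc n).symm (pr Y)) * (((tc n).symm g)ᴴ)ᴴ
  rw [hQ.ad0 g (hS hg) Y, map_mul, map_mul, tc_symm_star, Matrix.conjTranspose_conjTranspose,
    Matrix.mul_smul, Matrix.smul_mul]

theorem PF_hom (hEV : ST_EV) (hEVEN : ST_EVEN) {ι : Type} [Fintype ι] [DecidableEq ι]
    (Λ : Ext ι) {n q : ℕ} (c : Fin q → (M n →ₗ[ℝ] ℝ)) (F : ι → ι → M n) :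
    ∃ Φ : MvPolynomial (Fin q) ℝ →ₐ[ℝ] (Λ.X →L[ℝ] Λ.X), ∀ P, Φ P = PF Λ c P F := by
  obtain ⟨h1, h2, h3⟩ := hEVEN ι Λ
  obtain ⟨Φ, hΦ, -, -⟩ := hEV q (Λ.X →L[ℝ] Λ.X) (fun a => Λ.two fun μ ν => c a (F μ ν))
    (fun i j => h2 _ (h3 _) _ (h3 _))
  exact ⟨Φ, hΦ⟩

theorem vol_cube (ι : Type) [Fintype ι] : volume (cube ι) = 1 := by
  unfold cube
  rw [Real.volume_pi_Ico]
  simp

theorem Good.integrable {ι : Type} [Fintype ι] [DecidableEq ι] {Λ : Ext ι}
    {ω : (ι → ℝ) → (Λ.X →L[ℝ] Λ.X)} (h : Good Λ ω) : IntegrableOn ω (cube ι) volume := by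
  obtain ⟨C, hC⟩ := h.bdd
  refine ⟨h.meas.restrict, ?_⟩
  have : IsFiniteMeasure (volume.restrict (cube ι)) :=
    ⟨by rw [Measure.restrict_apply_univ, vol_cube]; exact ENNReal.one_lt_top⟩
  exact HasFiniteIntegral.of_bounded (C := C) (Filter.Eventually.of_forall hC)

theorem Fcon_mem {ι : Type} [Fintype ι] [DecidableEq ι] {n : ℕ} {N0 : E n → ℝ}
    {k : Submodule ℝ (M n)} (hk : LieOf N0 k)
    {pr : M n →ₗ[ℝ] M n} (hpr : ∀ X, pr X ∈ k)
    (K : (ι → ℝ) → E (n + 1) →L[ℂ] E n) (L : (ι → ℝ) → E n →L[ℂ] E (n + 1))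
    (g : (ι → ℝ) → ℝ) (x : ι → ℝ) (μ ν : ι) : Fcon K L g pr 0 x μ ν ∈ k := by
  have hQ : ∀ Y, Qx g pr 0 x Y ∈ k := fun Y => by
    unfold Qx
    simp only [LinearMap.zero_apply, smul_zero, add_zero]
    exact hpr Y
  unfold Fcon
  refine k.add_mem (k.add_mem ?_ (hQ _)) (hk.brk _ (hQ _) _ (hQ _))
  simp

theorem trunc_hom (hEV : ST_EV) (hEVEN : ST_EVEN) (hEQP : ST_EQP) (hMEAN : ST_MEAN)
    (hSHAPE : ST_SHAPE) (hCW1 : ST_CW1) (hCW2 : ST_CW2) (hTRP : ST_TRP)
    {n : ℕ} {N0 : E n → ℝ} {N : E (n + 1) → ℝ} (hSet : Setup n N0 N) (hU : Unitary N0)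
    {k : Submodule ℝ (M n)} (hk : LieOf N0 k) {pr : M n →ₗ[ℝ] M n} (hpr : ∀ X, pr X ∈ k)
    (hQ : QData N0 k pr 0) {D : Cpt n} (hD : D.h = hmat k) (hop : OpenSub N0 (Sop D))
    {π : (Ix n → ℝ) → M (n + 1)} {G : ℝ → ℝ → ℝ} (hT : Torus n π G)
    {L : (Ix n → ℝ) → E n →L[ℂ] E (n + 1)} {K : (Ix n → ℝ) → E (n + 1) →L[ℂ] E n}
    (hF : IsFrame N0 N π 3 L K) (Λ : Ext (Ix n)) {q : ℕ} (b : Module.Basis (Fin q) ℝ D.h) :
    ∃ φ : MvPolynomial (Fin q) ℝ →ₗ[ℝ] ℝ, TruncHom D b φ := by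
  classical
  set F : (Ix n → ℝ) → Ix n → Ix n → M n := fun x => Fcon K L (fun _ => 0) pr 0 (fr x) with hFdef
  set c := cco hpr hD b with hc
  set κ : ℝ := ∫ s in (0 : ℝ)..1, ∫ t in (0 : ℝ)..1, G s t with hκ
  have hκ0 : 0 < κ := hT.Gpos
  have good : ∀ P, InvP D b P → Good Λ (fun x => PF Λ c P (F x)) ∧
      ∀ d, P.IsHomogeneous d → ∃ a : ℝ, ∫ x in cube (Ix n), PF Λ c P (F x) = a • Λ.Om ^ d :=
    fun P hP => hCW1 n N0 N hSet hU k hk pr hpr hQ (Sop D) hop π G hT L K hF Λ q c P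
      (cco_inv hpr hQ hD hop.sub b P hP)
  set m : MvPolynomial (Fin q) ℝ → (Λ.X →L[ℝ] Λ.X) :=
    fun P => ∫ x in cube (Ix n), PF Λ c P (F x) with hm
  have hOm : ∀ d, d ≤ n → Λ.Om ^ d ≠ 0 := by
    intro d hd h0
    have := (hSHAPE n Λ).2.1 d hd
    apply this
    have h1 : (∑ i : Fin n, Λ.e (some (i, false)) * Λ.e (some (i, true))) = Λ.Om := rfl
    rw [h1, h0]; rfl
  have hlam : ∀ d, ∃ l : (Λ.X →L[ℝ] Λ.X) →L[ℝ] ℝ, d ≤ n → l (Λ.Om ^ d) = 1 := by
    intro d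
    by_cases hd : d ≤ n
    · obtain ⟨l, hl⟩ := SeparatingDual.exists_eq_one (R := ℝ) (hOm d hd)
      exact ⟨l, fun _ => hl⟩
    · exact ⟨0, fun h => absurd h hd⟩
  choose lam hlam using hlam
  have hhom : ∀ x, ∃ Φ : MvPolynomial (Fin q) ℝ →ₐ[ℝ] (Λ.X →L[ℝ] Λ.X), ∀ P, Φ P = PF Λ c P (F x) :=
    fun x => PF_hom hEV hEVEN Λ c (F x)
  choose Φ hΦ using hhom
  have m_add : ∀ P Q, InvP D b P → InvP D b Q → m (P + Q) = m P + m Q := by
    intro P Q hP hQ'
    simp only [hm]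
    rw [← integral_add (good P hP).1.integrable (good Q hQ').1.integrable]
    refine integral_congr_ae (Filter.Eventually.of_forall fun x => ?_)
    show PF Λ c (P + Q) (F x) = PF Λ c P (F x) + PF Λ c Q (F x)
    rw [← hΦ, ← hΦ, ← hΦ, map_add]
  have m_smul : ∀ (a : ℝ) P, m (a • P) = a • m P := by
    intro a P
    simp only [hm]
    rw [← integral_smul]
    refine integral_congr_ae (Filter.Eventually.of_forall fun x => ?_)
    show PF Λ c (a • P) (F x) = a • PF Λ c P (F x)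
    rw [← hΦ, ← hΦ, map_smul]
  have m_zero : m 0 = 0 := by
    have := m_smul 0 0
    simpa using this
  have m_mul : ∀ P Q, InvP D b P → InvP D b Q → m (P * Q) = m P * m Q := by
    intro P Q hP hQ'
    have h1 := hMEAN (Ix n) Λ _ _ (good P hP).1 (good Q hQ').1
    simp only [hm]
    rw [← h1]
    refine integral_congr_ae (Filter.Eventually.of_forall fun x => ?_)
    show PF Λ c (P * Q) (F x) = PF Λ c P (F x) * PF Λ c Q (F x)
    rw [← hΦ, ← hΦ, ← hΦ, map_mul]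
  have m_one : m 1 = 1 := by
    simp only [hm]
    have h1 : ∀ x, PF Λ c 1 (F x) = 1 := fun x => by rw [← hΦ, map_one]
    simp only [h1]
    rw [setIntegral_const, Measure.real, vol_cube]
    simp
  have inv_zero : InvP D b 0 := by
    intro g hg X
    rw [Pool.Agent.Helper80.CB.val_zero, Pool.Agent.Helper80.CB.val_zero]
  let Inv : Submodule ℝ (MvPolynomial (Fin q) ℝ) :=
    { carrier := {P | InvP D b P}
      add_mem' := fun h1 h2 => Pool.Agent.Helper80.CB.invP_add b h1 h2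
      zero_mem' := inv_zero
      smul_mem' := fun a P h => Pool.Agent.Helper80.CB.invP_smul b h a }
  let θ0 : Inv →ₗ[ℝ] ℝ :=
    { toFun := fun P => ∑ d ∈ Finset.range (n + 1),
        (κ ^ d)⁻¹ * lam d (m (MvPolynomial.homogeneousComponent d (P : MvPolynomial (Fin q) ℝ)))
      map_add' := by
        intro P Q
        rw [← Finset.sum_add_distrib]
        refine Finset.sum_congr rfl fun d _ => ?_
        rw [Submodule.coe_add, map_add, m_add _ _
          (Pool.Agent.Helper80.CB.invP_component b P.2 d)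
          (Pool.Agent.Helper80.CB.invP_component b Q.2 d), map_add, mul_add]
      map_smul' := by
        intro a P
        simp only [RingHom.id_apply, smul_eq_mul]
        rw [Finset.mul_sum]
        refine Finset.sum_congr rfl fun d _ => ?_
        rw [Submodule.coe_smul, map_smul, m_smul, map_smul, smul_eq_mul]
        ring }
  obtain ⟨θ, hθ⟩ := θ0.exists_extend
  have θval : ∀ P d, InvP D b P → P.IsHomogeneous d → d ≤ n →
      θ P = (κ ^ d)⁻¹ * lam d (m P) := by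
    intro P d hP hd hdn
    have h1 : θ P = θ0 ⟨P, hP⟩ := by rw [← hθ]; rfl
    rw [h1]
    show ∑ e ∈ Finset.range (n + 1),
        (κ ^ e)⁻¹ * lam e (m (MvPolynomial.homogeneousComponent e P)) = _
    rw [Finset.sum_eq_single d]
    · rw [MvPolynomial.homogeneousComponent_of_mem
        ((MvPolynomial.mem_homogeneousSubmodule d P).mpr hd), if_pos rfl]
    · intro e _ hed
      rw [MvPolynomial.homogeneousComponent_of_mem
        ((MvPolynomial.mem_homogeneousSubmodule d P).mpr hd), if_neg hed, m_zero, map_zero,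
        mul_zero]
    · intro h
      exact absurd (Finset.mem_range.mpr (Nat.lt_succ_of_le hdn)) h
  refine ⟨θ, ?_, ?_, ?_⟩
  · rw [θval 1 0 (Pool.Agent.Helper80.CB.invP_one b) (MvPolynomial.isHomogeneous_one _ _)
      (Nat.zero_le _), m_one]
    have := hlam 0 (Nat.zero_le _)
    rw [pow_zero] at this
    rw [this]; simp
  · intro P Q d e hP hQ' hPi hQi hde
    have hd : d ≤ n := by omega
    have he : e ≤ n := by omega
    rw [θval _ _ (Pool.Agent.Helper80.CB.invP_mul b hPi hQi) (hP.mul hQ') hde,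
      θval _ _ hPi hP hd, θval _ _ hQi hQ' he, m_mul _ _ hPi hQi]
    obtain ⟨x, hx⟩ := (good P hPi).2 d hP
    obtain ⟨y, hy⟩ := (good Q hQi).2 e hQ'
    have hx' : m P = x • Λ.Om ^ d := hx
    have hy' : m Q = y • Λ.Om ^ e := hy
    rw [hx', hy']
    have h1 : (x • Λ.Om ^ d) * (y • Λ.Om ^ e) = (x * y) • Λ.Om ^ (d + e) := by
      rw [smul_mul_smul_comm, pow_add]
    rw [h1]
    simp only [map_smul, smul_eq_mul]
    rw [hlam d hd, hlam e he, hlam (d + e) hde, pow_add, mul_inv]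
    ring
  · intro j hj hjn P hP hPt
    -- P is invariant
    have hPi : InvP D b P := by
      intro g hg X
      rw [hPt, hPt]
      have h1 : (g * (X : Mat n) * gᴴ) ^ j = g * (X : Mat n) ^ j * gᴴ := by
        have hu := D.unit g hg
        clear hj hjn hP hPt
        induction j with
        | zero =>
          rw [pow_zero, pow_zero, mul_one]
          exact (mul_eq_one_comm.mp hu).symm
        | succ j ih =>
          rw [pow_succ, ih, pow_succ]
          calc g * (X : Mat n) ^ j * gᴴ * (g * (X : Mat n) * gᴴ)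
              = g * (X : Mat n) ^ j * (gᴴ * g) * (X : Mat n) * gᴴ := by
                simp only [mul_assoc]
            _ = _ := by rw [hu]; simp only [mul_assoc, mul_one, one_mul]
      show (Matrix.trace ((g * (X : Mat n) * gᴴ) ^ j)).re = _
      rw [h1, Matrix.trace_mul_comm, ← mul_assoc, D.unit g hg, one_mul]
    obtain ⟨q', c', hP'⟩ := hTRP n
    obtain ⟨P', -, hP'e⟩ := hP' j
    have h2 : ∀ x, PF Λ c P (F x) = PF Λ c' P' (F x) := by
      intro x
      refine hEQP (Ix n) Λ n q q' c c' P P' k ?_ (F x) (fun μ ν => Fcon_mem hk hpr _ _ _ _ _ _)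
      intro Y hY
      rw [hP'e Y, trace_symm, map_pow, tc_symm_smul]
      show val b ⟨Jmat pr Y, _⟩ P = _
      rw [hPt]
      show (Matrix.trace (((-Complex.I) • (tc n).symm (pr Y)) ^ j)).re = _
      have h3 : pr Y = Y := (hQ.fix Y hY).1
      rw [h3]
    have h3 : m P = -(κ • Λ.Om) ^ j := by
      simp only [hm]
      simp only [h2]
      exact hCW2 n N0 N hSet hU k hk pr hpr hQ π G hT L K hF Λ q' j c' P' hj hP'e
    rw [θval P j hPi hP hjn, h3, map_neg, smul_pow, map_smul, smul_eq_mul, hlam j hjn]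
    field_simp

end Pool.Agent.Helper83.CB
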