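import Pool.Agent.Helper83.CB.FinB

/-!
# Final assembly, third part: the rotational plane, and the theorem in coordinates
-/

open Filter Topology MeasureTheory Matrix

namespace Pool.Agent.Helper83.CB

open Pool.Agent.Helper80.CB (Mat Cpt Conn val InvP TruncHom)

theorem plane {n : ℕ} {N0 : E n → ℝ} (hN : IsNorm N0) {D : Cpt n} (hsub : Sop D ⊆ PP N0 N0)
    (u v : Fin n → ℂ) (hu : star u ⬝ᵥ u = 1) (hv : star v ⬝ᵥ v = 1) (huv : star u ⬝ᵥ v = 0)
    (h : ∀ a b a' b' : ℂ, ‖a‖ ^ 2 + ‖b‖ ^ 2 = ‖a'‖ ^ 2 + ‖b'‖ ^ 2 →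
        ∃ g ∈ D.S, g *ᵥ (a • u + b • v) = a' • u + b' • v ∧
          ∀ y : Fin n → ℂ, star u ⬝ᵥ y = 0 → star v ⬝ᵥ y = 0 → g *ᵥ y = y) :
    ∃ A : Submodule ℂ (E n), IsRot N0 ⊤ A ∧ 2 ≤ Module.finrank ℂ A := by
  set U : E n := WithLp.toLp 2 u with hU
  set V : E n := WithLp.toLp 2 v with hV
  have iUU : inner ℂ U U = 1 := by
    rw [EuclideanSpace.inner_eq_star_dotProduct, dotProduct_comm]; exact hu
  have iVV : inner ℂ V V = 1 := by
    rw [EuclideanSpace.inner_eq_star_dotProduct, dotProduct_comm]; exact hv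
  have iUV : inner ℂ U V = 0 := by
    rw [EuclideanSpace.inner_eq_star_dotProduct, dotProduct_comm]; exact huv
  have iVU : inner ℂ V U = 0 := by
    rw [← inner_conj_symm, iUV, map_zero]
  have hnorm : ∀ a b : ℂ, ‖a • U + b • V‖ ^ 2 = ‖a‖ ^ 2 + ‖b‖ ^ 2 := by
    intro a b
    have h1 : inner ℂ (a • U + b • V) (a • U + b • V) = ((‖a‖ ^ 2 + ‖b‖ ^ 2 : ℝ) : ℂ) := by
      simp only [inner_add_left, inner_add_right, inner_smul_left, inner_smul_right, iUU, iVV,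
        iUV, iVU]
      simp only [mul_zero, mul_one, add_zero, zero_add]
      rw [Complex.ofReal_add, Complex.ofReal_pow, Complex.ofReal_pow,
        ← Complex.conj_mul', ← Complex.conj_mul']
      ring
    have h2 := inner_self_eq_norm_sq_to_K (𝕜 := ℂ) (a • U + b • V)
    rw [h1] at h2
    have h3 : ((‖a‖ ^ 2 + ‖b‖ ^ 2 : ℝ) : ℂ) = ((‖a • U + b • V‖ ^ 2 : ℝ) : ℂ) := by
      rw [h2]; simp
    exact (Complex.ofReal_injective h3).symm
  set A : Submodule ℂ (E n) := Submodule.span ℂ {U, V} with hA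
  have memA : ∀ w, w ∈ A ↔ ∃ a b : ℂ, a • U + b • V = w := fun w => Submodule.mem_span_pair
  have key : ∀ w ∈ A, ∀ w' ∈ A, ∀ c ∈ Aᗮ, ‖w‖ = ‖w'‖ → N0 (w + c) = N0 (w' + c) := by
    intro w hw w' hw' c hc hww
    obtain ⟨a, b, rfl⟩ := (memA w).mp hw
    obtain ⟨a', b', rfl⟩ := (memA w').mp hw'
    have h1 : ‖a‖ ^ 2 + ‖b‖ ^ 2 = ‖a'‖ ^ 2 + ‖b'‖ ^ 2 := by
      rw [← hnorm, ← hnorm, hww]
    obtain ⟨g, hg, hg1, hg2⟩ := h a b a' b' h1
    have hcU : inner ℂ U c = 0 := (Submodule.mem_orthogonal A c).mp hc U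
      (Submodule.subset_span (by simp))
    have hcV : inner ℂ V c = 0 := (Submodule.mem_orthogonal A c).mp hc V
      (Submodule.subset_span (by simp))
    rw [EuclideanSpace.inner_eq_star_dotProduct, dotProduct_comm] at hcU hcV
    have h2 : tc n g ∈ PP N0 N0 := by
      apply hsub
      show (tc n).symm (tc n g) ∈ D.S
      rw [StarAlgEquiv.symm_apply_apply]; exact hg
    have h3 : tc n g (a • U + b • V + c) = a' • U + b' • V + c := by
      rw [map_add]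
      congr 1
      · apply (WithLp.ofLp_injective 2)
        rw [tc_apply]
        exact hg1
      · apply (WithLp.ofLp_injective 2)
        rw [tc_apply]
        exact hg2 _ hcU hcV
    rw [← h3]
    exact (h2 _).symm
  have UA : U ∈ A := Submodule.subset_span (by simp)
  have U0 : U ≠ 0 := by
    intro h0
    rw [h0, inner_zero_left] at iUU
    exact zero_ne_one iUU
  have hNU : 0 < N0 U := hN.pos U U0
  have nU : ‖U‖ = 1 := by
    have h2 := inner_self_eq_norm_sq_to_K (𝕜 := ℂ) U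
    rw [iUU] at h2
    have h3 : (1 : ℝ) = ‖U‖ ^ 2 := by
      apply Complex.ofReal_injective
      simpa using h2
    nlinarith [norm_nonneg U]
  have nV : ‖V‖ = 1 := by
    have h2 := inner_self_eq_norm_sq_to_K (𝕜 := ℂ) V
    rw [iVV] at h2
    have h3 : (1 : ℝ) = ‖V‖ ^ 2 := by
      apply Complex.ofReal_injective
      simpa using h2
    nlinarith [norm_nonneg V]
  have sc : ∀ w ∈ A, N0 w = ‖w‖ * N0 U := by
    intro w hw
    have h1 := key w hw (((‖w‖ : ℝ) : ℂ) • U) (A.smul_mem _ UA) 0 (Submodule.zero_mem _)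
      (by rw [norm_smul, nU]; simp)
    rw [add_zero, add_zero, hN.smul] at h1
    rw [h1]; simp
  refine ⟨A, ⟨Aᗮ, ⟨Submodule.inf_orthogonal_eq_bot A, ?_, ?_, ?_⟩⟩, ?_⟩
  · exact Submodule.sup_orthogonal_of_hasOrthogonalProjection
  · intro a ha b hb
    rw [sc _ (A.add_mem ha hb), sc _ (A.sub_mem ha hb), sc a ha, sc b hb]
    have h1 := parallelogram_law_with_norm ℂ a b
    have h2 : ‖a + b‖ ^ 2 + ‖a - b‖ ^ 2 = 2 * (‖a‖ ^ 2 + ‖b‖ ^ 2) := by nlinarith [h1]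
    calc (‖a + b‖ * N0 U) ^ 2 + (‖a - b‖ * N0 U) ^ 2
        = (‖a + b‖ ^ 2 + ‖a - b‖ ^ 2) * N0 U ^ 2 := by ring
      _ = 2 * ((‖a‖ * N0 U) ^ 2 + (‖b‖ * N0 U) ^ 2) := by rw [h2]; ring
  · intro a ha a' ha' c hc haa
    refine key a ha a' ha' c hc ?_
    rw [sc a ha, sc a' ha'] at haa
    exact mul_right_cancel₀ hNU.ne' haa
  · have hON : Orthonormal ℂ ![U, V] := by
      rw [orthonormal_iff_ite]
      intro i j
      fin_cases i <;> fin_cases j <;> simp [iUV, iVU, nU, nV]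
    have h1 := finrank_span_eq_card hON.linearIndependent
    have h2 : Set.range ![U, V] = {U, V} := by
      ext x; simp [or_comm]
    rw [h2] at h1
    rw [hA, h1]; simp

/-- the theorem in coordinates, from all the modules -/
theorem coord_theorem (hEV : ST_EV) (hEVEN : ST_EVEN) (hEQP : ST_EQP) (hMEAN : ST_MEAN)
    (hSHAPE : ST_SHAPE) (hCW1 : ST_CW1) (hCW2 : ST_CW2) (hTRP : ST_TRP)
    (hGRP : ST_GRP) (hLIE : ST_LIE) (hPR : ST_PR) (hCS : ST_CS) (hFRAME : ST_FRAME)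
    (hTORUS : ST_TORUS) (hEXT : ST_EXT) (hGT : ST_GT)
    (hEXPS : Pool.Agent.Helper80.CB.ST_EXPS) (hALG : Pool.Agent.Helper80.CB.ST_ALG)
    {n : ℕ} (hn : n % 4 = 3) {N0 : E n → ℝ} {N : E (n + 1) → ℝ} (hSet : Setup n N0 N)
    (hU : Unitary N0) :
    ∀ x y, N (x + y) ^ 2 + N (x - y) ^ 2 = 2 * (N x ^ 2 + N y ^ 2) := by
  obtain ⟨k, hk⟩ := hLIE n N0 hSet.norm0 hU
  obtain ⟨pr, hpr, hprk, hpra⟩ := hPR n N0 hSet.norm0 hU k hk
  have hQ : QData N0 k pr 0 := by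
    refine ⟨fun X hX => ⟨hprk X hX, rfl⟩, hpra, fun g hg X => ?_⟩
    simp
  obtain ⟨D, hD, hDS⟩ := fin_data hGRP hCS hEXPS hSet.norm0 hU hk
  have hop := sop_open hCS hSet.norm0 hU hk hDS
  obtain ⟨π, G, hT⟩ := hTORUS n
  obtain ⟨C, hC⟩ := hT.lip
  obtain ⟨L, K, hF⟩ := hFRAME n N0 N hSet hU (Ix n) π C hC hT.proj 3
  obtain ⟨Λ⟩ := hEXT (Ix n)
  have b := Module.finBasis ℝ D.h
  obtain ⟨φ, hφ⟩ := trunc_hom hEV hEVEN hEQP hMEAN hSHAPE hCW1 hCW2 hTRP hSet hU hk hpr hQ hD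
    hop hT hF Λ b
  have hconn : Conn D := by
    intro g hg
    rw [hDS] at hg
    obtain ⟨X, hX, h⟩ := hg
    exact ⟨X, by rw [hD]; exact hX, h⟩
  obtain ⟨u, v, hu, hv, huv, h⟩ := hALG n hn D hconn _ b φ hφ
  exact hGT n N0 N hSet (plane hSet.norm0 hop.sub u v hu hv huv h)

end Pool.Agent.Helper83.CB
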